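import Mathlib
import Pool.Agent.H75.Perc.Prob

set_option autoImplicit false
set_option linter.unusedSectionVars false
open Finset Filter Topology

/-! Module M5, C1 (abstract part): a finite family `H` of hulls closed under unions, events `G S`
(`S` is avoided) which are decreasing in `S` and stable under unions; the maximal avoided hull and
its law by Moebius inversion. -/

namespace Pool.Agent.H78.Q1

open Pool.Agent.H75.Perc

variable {ι α : Type*} [DecidableEq ι] [DecidableEq α]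

/-- The family `H` of hulls: contains the empty hull, closed under unions. -/
structure HullFam (H : Finset (Finset ι)) : Prop where
  empty : ∅ ∈ H
  union : ∀ S ∈ H, ∀ S' ∈ H, S ∪ S' ∈ H

/-- The events `G S` = `the hull S is avoided`. -/
structure HullEv (H : Finset (Finset ι)) (E : Finset α) (G : Finset ι → Finset α → Prop) : Prop where
  mono : ∀ S ∈ H, ∀ S' ∈ H, S ⊆ S' → ∀ ω, ω ⊆ E → G S' ω → G S ω
  lat : ∀ S ∈ H, ∀ S' ∈ H, ∀ ω, ω ⊆ E → G S ω → G S' ω → G (S ∪ S') ω

open Classical in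
/-- The maximal avoided hull. -/
noncomputable def hull (H : Finset (Finset ι)) (G : Finset ι → Finset α → Prop) (ω : Finset α) :
    Finset ι := (H.filter (fun S => G S ω)).sup id

section
variable {H : Finset (Finset ι)} {E : Finset α} {G : Finset ι → Finset α → Prop}

lemma hull_mem_aux (hH : HullFam H) (hG : HullEv H E G) {ω : Finset α} (hω : ω ⊆ E)
    (K : Finset (Finset ι)) (hK : ∀ S ∈ K, S ∈ H ∧ G S ω) (h0 : G ∅ ω) :
    K.sup id ∈ H ∧ G (K.sup id) ω := by
  induction K using Finset.induction with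
  | empty => exact ⟨by simpa using hH.empty, by simpa using h0⟩
  | insert S K hS ih =>
    obtain ⟨h1, h2⟩ := ih (fun T hT => hK T (mem_insert_of_mem hT))
    obtain ⟨h3, h4⟩ := hK S (mem_insert_self _ _)
    rw [sup_insert, id, sup_eq_union]
    exact ⟨hH.union _ h3 _ h1, hG.lat _ h3 _ h1 _ hω h4 h2⟩

lemma hull_mem (hH : HullFam H) (hG : HullEv H E G) {ω : Finset α} (hω : ω ⊆ E) (h0 : G ∅ ω) :
    hull H G ω ∈ H ∧ G (hull H G ω) ω := by
  classical
  unfold hull
  exact hull_mem_aux hH hG hω _ (fun S hS => by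
    rw [mem_filter] at hS; exact hS) h0

lemma subset_hull {ω : Finset α} {S : Finset ι} (hS : S ∈ H) (h : G S ω) : S ⊆ hull H G ω := by
  classical
  unfold hull
  exact le_sup (f := id) (mem_filter.2 ⟨hS, h⟩)

/-- `S` is avoided if and only if it is contained in the maximal avoided hull. -/
lemma G_iff (hH : HullFam H) (hG : HullEv H E G) {ω : Finset α} (hω : ω ⊆ E) {S : Finset ι}
    (hS : S ∈ H) : G S ω ↔ G ∅ ω ∧ S ⊆ hull H G ω := by
  constructor
  · intro h
    exact ⟨hG.mono _ hH.empty _ hS (empty_subset _) _ hω h, subset_hull hS h⟩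
  · rintro ⟨h0, h⟩
    obtain ⟨h1, h2⟩ := hull_mem hH hG hω h0
    exact hG.mono _ hS _ h1 h _ hω h2

/-- The maximal hull is `S` if and only if `S` is avoided and no larger hull is avoided. -/
lemma hull_eq_iff (hH : HullFam H) (hG : HullEv H E G) {ω : Finset α} (hω : ω ⊆ E) {S : Finset ι}
    (hS : S ∈ H) : (G ∅ ω ∧ hull H G ω = S) ↔ (G S ω ∧ ∀ S' ∈ H, S ⊂ S' → ¬ G S' ω) := by
  constructor
  · rintro ⟨h0, rfl⟩
    obtain ⟨h1, h2⟩ := hull_mem hH hG hω h0
    refine ⟨h2, fun S' hS' hlt h => ?_⟩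
    exact (Finset.ssubset_iff_subset_ne.1 hlt).2 (subset_antisymm hlt.1 (subset_hull hS' h))
  · rintro ⟨h, hmax⟩
    have h0 := hG.mono _ hH.empty _ hS (empty_subset _) _ hω h
    refine ⟨h0, ?_⟩
    obtain ⟨h1, h2⟩ := hull_mem hH hG hω h0
    by_contra hne
    exact hmax _ h1 (Finset.ssubset_iff_subset_ne.2 ⟨subset_hull hS h, fun e => hne e.symm⟩) h2

/-- Law of the maximal hull summed over the hulls above `S`. -/
lemma Pr_G_sum (hH : HullFam H) (hG : HullEv H E G) {S : Finset ι} (hS : S ∈ H) :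
    Pr E (G S) = ∑ S' ∈ H.filter (fun S' => S ⊆ S'), Pr E (fun ω => G ∅ ω ∧ hull H G ω = S') := by
  classical
  have key : ∀ ω ∈ E.powerset, (if G S ω then (1 : ℝ) else 0) =
      ∑ S' ∈ H.filter (fun S' => S ⊆ S'), (if G ∅ ω ∧ hull H G ω = S' then (1 : ℝ) else 0) := by
    intro ω hω
    rw [mem_powerset] at hω
    by_cases h : G S ω
    · rw [if_pos h]
      obtain ⟨h0, hsub⟩ := (G_iff hH hG hω hS).1 h
      obtain ⟨h1, _⟩ := hull_mem hH hG hω h0
      rw [sum_eq_single (hull H G ω)]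
      · rw [if_pos ⟨h0, rfl⟩]
      · intro b _ hb
        rw [if_neg]
        rintro ⟨_, h3⟩
        exact hb h3.symm
      · intro h3
        exact absurd (mem_filter.2 ⟨h1, hsub⟩) h3
    · rw [if_neg h]
      symm
      apply sum_eq_zero
      intro b hb
      rw [mem_filter] at hb
      rw [if_neg]
      rintro ⟨h0, rfl⟩
      exact h ((G_iff hH hG hω hS).2 ⟨h0, hb.2⟩)
  have e1 : ∀ A : Finset α → Prop, Pr E A =
      (∑ ω ∈ E.powerset, (if A ω then (1 : ℝ) else 0)) / 2 ^ E.card := by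
    intro A
    rw [Pr_eq, sum_boole]
  rw [e1, sum_congr rfl key, sum_comm, Finset.sum_div]
  refine sum_congr rfl fun S' _ => ?_
  rw [e1]
  congr 1
  exact sum_congr rfl fun ω _ => by congr

end

/-- Solution of the triangular system `∑_{S' ∈ H, S ⊆ S'} p S' = g S`. -/
noncomputable def moeb (H : Finset (Finset ι)) (g : Finset ι → ℝ) (S : Finset ι) : ℝ :=
  g S - ∑ S' ∈ (H.filter (fun S' => S ⊂ S')).attach, moeb H g S'.1
termination_by (H.filter (fun S' => S ⊂ S')).card
decreasing_by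
  apply card_lt_card
  rw [ssubset_iff_of_subset]
  · have := S'.2
    rw [mem_filter] at this
    refine ⟨S'.1, mem_filter.2 this, ?_⟩
    rw [mem_filter]
    rintro ⟨_, h⟩
    exact (ssubset_irrefl _) h
  · intro T hT
    have := S'.2
    rw [mem_filter] at this hT ⊢
    exact ⟨hT.1, this.2.trans hT.2⟩

lemma moeb_eq (H : Finset (Finset ι)) (g : Finset ι → ℝ) (S : Finset ι) :
    moeb H g S = g S - ∑ S' ∈ H.filter (fun S' => S ⊂ S'), moeb H g S' := by
  rw [moeb, sum_attach _ (fun S' => moeb H g S')]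

lemma filter_split {H : Finset (Finset ι)} {S : Finset ι} (hS : S ∈ H) (f : Finset ι → ℝ) :
    ∑ S' ∈ H.filter (fun S' => S ⊆ S'), f S' = f S + ∑ S' ∈ H.filter (fun S' => S ⊂ S'), f S' := by
  have : H.filter (fun S' => S ⊆ S') = insert S (H.filter (fun S' => S ⊂ S')) := by
    ext T
    rw [mem_insert, mem_filter, mem_filter]
    constructor
    · rintro ⟨h1, h2⟩
      rcases eq_or_ne S T with h3 | h3
      · exact Or.inl h3.symm
      · exact Or.inr ⟨h1, Finset.ssubset_iff_subset_ne.2 ⟨h2, h3⟩⟩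
    · rintro (h | ⟨h1, h2⟩)
      · subst h; exact ⟨hS, Subset.refl _⟩
      · exact ⟨h1, h2.1⟩
  rw [this, sum_insert]
  rw [mem_filter]
  rintro ⟨_, h⟩
  exact (ssubset_irrefl _) h

lemma moeb_sum {H : Finset (Finset ι)} (g : Finset ι → ℝ) {S : Finset ι} (hS : S ∈ H) :
    ∑ S' ∈ H.filter (fun S' => S ⊆ S'), moeb H g S' = g S := by
  rw [filter_split hS, moeb_eq H g S]
  ring

/-- **Convergence of the law of the maximal hull.** -/
theorem tendsto_hull {κ : Type*} {l : Filter κ} {H : Finset (Finset ι)} (hH : HullFam H)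
    {E : κ → Finset α} {G : κ → Finset ι → Finset α → Prop} (hG : ∀ j, HullEv H (E j) (G j))
    {c : κ → ℝ} {g : Finset ι → ℝ}
    (hlim : ∀ S ∈ H, Tendsto (fun j => Pr (E j) (G j S) / c j) l (𝓝 (g S))) :
    ∀ S ∈ H, Tendsto (fun j => Pr (E j) (fun ω => G j ∅ ω ∧ hull H (G j) ω = S) / c j) l
      (𝓝 (moeb H g S)) := by
  classical
  have key : ∀ n : ℕ, ∀ S ∈ H, (H.filter (fun S' => S ⊂ S')).card = n →
      Tendsto (fun j => Pr (E j) (fun ω => G j ∅ ω ∧ hull H (G j) ω = S) / c j) l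
        (𝓝 (moeb H g S)) := by
    intro n
    induction n using Nat.strong_induction_on with
    | _ n ih =>
      intro S hS hn
      rw [moeb_eq]
      have h1 : ∀ j, Pr (E j) (fun ω => G j ∅ ω ∧ hull H (G j) ω = S) / c j =
          Pr (E j) (G j S) / c j - ∑ S' ∈ H.filter (fun S' => S ⊂ S'),
            Pr (E j) (fun ω => G j ∅ ω ∧ hull H (G j) ω = S') / c j := by
        intro j
        rw [Pr_G_sum hH (hG j) hS, filter_split hS, add_div, Finset.sum_div]
        ring
      simp_rw [h1]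
      refine (hlim S hS).sub (tendsto_finsetSum _ fun S' hS' => ?_)
      rw [mem_filter] at hS'
      refine ih _ ?_ S' hS'.1 rfl
      rw [← hn]
      apply card_lt_card
      rw [ssubset_iff_of_subset]
      · refine ⟨S', mem_filter.2 hS', ?_⟩
        rw [mem_filter]
        rintro ⟨_, h⟩
        exact (ssubset_irrefl _) h
      · intro T hT
        rw [mem_filter] at hT ⊢
        exact ⟨hT.1, hS'.2.trans hT.2⟩
  exact fun S hS => key _ S hS rfl

/-- The law of the maximal hull depends on the labels outside the hull only. -/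
lemma hull_indep {H : Finset (Finset ι)} {E : Finset α} {G : Finset ι → Finset α → Prop}
    (hH : HullFam H) (hG : HullEv H E G) {L : Finset ι → Finset α}
    (hL : ∀ S ∈ H, ∀ S' ∈ H, S ⊆ S' → L S ⊆ L S') (hLE : ∀ S ∈ H, L S ⊆ E)
    (hloc : ∀ S ∈ H, ∀ ω, ω ⊆ E → (G S ω ↔ G S (ω \ L S))) {S : Finset ι} (hS : S ∈ H)
    (B : Finset α → Prop) :
    Pr E (fun ω => (G ∅ ω ∧ hull H G ω = S) ∧ B (ω ∩ L S)) =
      Pr E (fun ω => G ∅ ω ∧ hull H G ω = S) * Pr (L S) B := by
  classical
  set A : Finset α → Prop := fun ω => G S ω ∧ ∀ S' ∈ H, S ⊂ S' → ¬ G S' ω with hA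
  have e1 : ∀ ω, ω ⊆ E → ((G ∅ ω ∧ hull H G ω = S) ↔ A (ω \ L S)) := by
    intro ω hω
    rw [hull_eq_iff hH hG hω hS, hA]
    simp only
    rw [← hloc S hS ω hω]
    refine and_congr Iff.rfl (forall_congr' fun S' => forall_congr' fun hS' =>
      forall_congr' fun hlt => not_congr ?_)
    rw [hloc S' hS' ω hω, hloc S' hS' (ω \ L S) (sdiff_subset.trans hω)]
    have : (ω \ L S) \ L S' = ω \ L S' := by
      rw [sdiff_sdiff]
      congr 1
      exact sup_eq_right.2 (hL S hS S' hS' hlt.1)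
    rw [this]
  have e2 : Pr E (fun ω => (G ∅ ω ∧ hull H G ω = S) ∧ B (ω ∩ L S)) =
      Pr E (fun ω => B (ω ∩ L S) ∧ A (ω \ L S)) :=
    Pr_congr fun ω hω => by rw [e1 ω hω]; exact and_comm
  have e3 : Pr E (fun ω => G ∅ ω ∧ hull H G ω = S) =
      Pr E (fun ω => True ∧ A (ω \ L S)) :=
    Pr_congr fun ω hω => by rw [e1 ω hω, true_and]
  rw [e2, e3, Pr_split (hLE S hS), Pr_split (hLE S hS) (fun _ => True) A, Pr_true, one_mul,
    mul_comm]

end Pool.Agent.H78.Q1
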