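import Mathlib
import Pool.Agent.Q1.M4.Walk
import Pool.Agent.H65.Dom.Clu

set_option autoImplicit false
open Finset

/-! Module M5, C1': two disjoint connected sets of cells of a good polyomino do not interlace along
the boundary walk. -/

namespace Pool.Agent.H78.Q1

open Pool.Agent.H75.Perc Pool.Agent.H75.TwoArm Pool.Agent.H75.Four Pool.Agent.H65.Dom
open Pool.Agent.Q1.M4 (Cell Adj4 Conn4 Good IsSide nextSide tail head Eqv edge_cells)

/-- label of the side of the cell `c` in direction `k` -/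
def cl (c : Cell) (k : ℤ) : ℤ × ℤ := c + c + (1, 1) + dir k

lemma tail_add_head (s : Cell × ℤ) : tail s + head s = Pool.Agent.Q1.M4.lab s := by
  rw [Pool.Agent.Q1.M4.lab_eq_tail]
  unfold head
  abel

lemma mod4 (k : ℤ) : k % 4 = 0 ∨ k % 4 = 1 ∨ k % 4 = 2 ∨ k % 4 = 3 := by omega

lemma head_eq_tail_succ (c : Cell) (k : ℤ) : head (c, k) = tail (c, k + 1) := by
  obtain ⟨i, j⟩ := c
  unfold head tail dir
  rcases mod4 k with h | h | h | h
  · have h1 : (k + 1) % 4 = 1 := by omega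
    simp [h, h1]
  · have h1 : (k + 1) % 4 = 2 := by omega
    simp [h, h1]
  · have h1 : (k + 1) % 4 = 3 := by omega
    simp [h, h1]
  · have h1 : (k + 1) % 4 = 0 := by omega
    simp [h, h1]

/-- the common side of two neighbouring cells -/
lemma tail_share (c : Cell) (k : ℤ) : tail (c, k + 1) = tail (c + dir k, k + 4) := by
  obtain ⟨i, j⟩ := c
  unfold tail dir
  rcases mod4 k with h | h | h | h
  · have h1 : (k + 1) % 4 = 1 := by omega
    have h3 : (k + 4) % 4 = 0 := by omega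
    simp [h, h1]
  · have h1 : (k + 1) % 4 = 2 := by omega
    have h3 : (k + 4) % 4 = 1 := by omega
    simp [h, h1]
  · have h1 : (k + 1) % 4 = 3 := by omega
    have h3 : (k + 4) % 4 = 2 := by omega
    simp [h, h1]
  · have h1 : (k + 1) % 4 = 0 := by omega
    have h3 : (k + 4) % 4 = 3 := by omega
    simp [h, h1]

/-- labels of all sides of the cells of `A` -/
noncomputable def cellLabs (A : Finset Cell) : Finset (ℤ × ℤ) :=
  A.biUnion fun c => (Finset.Icc (0 : ℤ) 3).image fun k => cl c k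

lemma mem_cellLabs {A : Finset Cell} {l : ℤ × ℤ} :
    l ∈ cellLabs A ↔ ∃ c ∈ A, ∃ k : ℤ, cl c k = l := by
  unfold cellLabs
  simp only [mem_biUnion, mem_image, mem_Icc]
  constructor
  · rintro ⟨c, hc, k, -, h⟩
    exact ⟨c, hc, k, h⟩
  · rintro ⟨c, hc, k, h⟩
    refine ⟨c, hc, k % 4, by omega, ?_⟩
    rw [← h]
    unfold cl
    congr 1
    exact Pool.Agent.Q1.M4.dir_congr (by omega)

lemma ad_side {ω : Finset (ℤ × ℤ)} {s : Cell × ℤ} (h : Pool.Agent.Q1.M4.lab s ∈ ω) :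
    Ad ω (tail s) (head s) := by
  refine ⟨?_, by rw [tail_add_head]; exact h⟩
  unfold head
  rw [add_sub_cancel_left]
  exact isUnit4_dir _

lemma lab_cl (c : Cell) (k : ℤ) : Pool.Agent.Q1.M4.lab (c, k) = cl c (k - 1) := rfl

lemma co_cell {ω : Finset (ℤ × ℤ)} {c : Cell} (h : ∀ k, cl c k ∈ ω) (k l : ℤ) :
    Co ω (tail (c, k)) (tail (c, l)) := by
  have step : ∀ k : ℤ, Co ω (tail (c, k)) (tail (c, k + 1)) := by
    intro k
    rw [← head_eq_tail_succ]
    exact Relation.ReflTransGen.single (ad_side (h _))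
  have up : ∀ n : ℕ, ∀ k : ℤ, Co ω (tail (c, k)) (tail (c, k + n)) := by
    intro n
    induction n with
    | zero => intro k; simp only [Nat.cast_zero, add_zero]; exact Co.refl _ _
    | succ n ih =>
      intro k
      have := (ih k).trans (step (k + n))
      rw [add_assoc] at this
      rw [Nat.cast_succ]
      exact this
  rcases le_total k l with h1 | h1
  · obtain ⟨n, hn⟩ := Int.eq_ofNat_of_zero_le (sub_nonneg.2 h1)
    have := up n k
    rwa [← hn, add_sub_cancel] at this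
  · obtain ⟨n, hn⟩ := Int.eq_ofNat_of_zero_le (sub_nonneg.2 h1)
    have := up n l
    rw [← hn, add_sub_cancel] at this
    exact this.symm

lemma co_cells {A : Finset Cell} {ω : Finset (ℤ × ℤ)} (hω : cellLabs A ⊆ ω) {c d : Cell}
    (hc : c ∈ A) (h : Relation.ReflTransGen (fun a b => Adj4 a b ∧ b ∈ (A : Set Cell)) c d)
    (k l : ℤ) : d ∈ A ∧ Co ω (tail (c, k)) (tail (d, l)) := by
  have hall : ∀ c ∈ A, ∀ k, cl c k ∈ ω := fun c hc k => hω (mem_cellLabs.2 ⟨c, hc, k, rfl⟩)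
  induction h generalizing l with
  | refl => exact ⟨hc, co_cell (hall c hc) k l⟩
  | @tail a b _ hab ih =>
    obtain ⟨⟨j, hj⟩, hb⟩ := hab
    have hb' : b ∈ A := hb
    refine ⟨hb', ?_⟩
    have h1 := (ih (j + 1)).2
    have h2 := tail_share a j
    rw [← hj] at h2
    rw [h2] at h1
    exact h1.trans (co_cell (hall b hb') _ _)

/-- dual connection in large boxes -/
def DcX (η : Finset (ℤ × ℤ)) (g g' : ℤ × ℤ) : Prop :=
  ∃ M0 : ℤ, ∀ M, M0 ≤ M → Co (du (H75.TwoArm.BB M) η) g g'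

lemma DcX.trans {η : Finset (ℤ × ℤ)} {f g h : ℤ × ℤ} (h1 : DcX η f g) (h2 : DcX η g h) :
    DcX η f h := by
  obtain ⟨a, ha⟩ := h1
  obtain ⟨b, hb⟩ := h2
  exact ⟨max a b, fun M hM => (ha M (le_trans (le_max_left _ _) hM)).trans
    (hb M (le_trans (le_max_right _ _) hM))⟩

lemma DcX.symm {η : Finset (ℤ × ℤ)} {f g : ℤ × ℤ} (h1 : DcX η f g) : DcX η g f := by
  obtain ⟨a, ha⟩ := h1
  exact ⟨a, fun M hM => (ha M hM).symm⟩

lemma DcX.refl (η : Finset (ℤ × ℤ)) (f : ℤ × ℤ) : DcX η f f := ⟨0, fun _ _ => Co.refl _ _⟩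

lemma odd_cl (c : Cell) (k : ℤ) : ((cl c k).1 + (cl c k).2) % 2 = 1 := by
  obtain ⟨i, j⟩ := c
  unfold cl
  rcases dir_cases k with ⟨a, e⟩ | ⟨a, e⟩ | ⟨a, e⟩ | ⟨a, e⟩ <;> rw [e] <;> simp <;> omega

lemma exists_BB (l : ℤ × ℤ) (hl : (l.1 + l.2) % 2 = 1) :
    ∃ M0 : ℤ, ∀ M, M0 ≤ M → l ∈ H75.TwoArm.BB M := by
  refine ⟨|l.1| + |l.2|, fun M hM => ?_⟩
  rw [HOrderAux.mem_BB']
  have h1 := neg_abs_le l.1
  have h2 := le_abs_self l.1
  have h3 := neg_abs_le l.2
  have h4 := le_abs_self l.2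
  have h5 := abs_nonneg l.1
  have h6 := abs_nonneg l.2
  refine ⟨⟨by linarith, by linarith⟩, ⟨by linarith, by linarith⟩, hl⟩

/-- a dual step between two neighbouring cells across a closed side -/
lemma dcX_step {η : Finset (ℤ × ℤ)} {c : Cell} {k : ℤ} (h : cl c k ∉ η) :
    DcX η (c + (1, 1)) (c + dir k + (1, 1)) := by
  obtain ⟨M0, hM0⟩ := exists_BB (cl c k) (odd_cl c k)
  refine ⟨M0, fun M hM => Relation.ReflTransGen.single ⟨?_, ?_⟩⟩
  · have : c + dir k + (1, 1) - (c + (1, 1)) = dir k := by abel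
    rw [this]; exact isUnit4_dir k
  · have : c + (1, 1) + (c + dir k + (1, 1)) = cl c k + (1, 1) := by unfold cl; abel
    rw [this]
    exact H75.TwoArm.StrandAux.mem_du (hM0 M hM) h

lemma dcX_path {η : Finset (ℤ × ℤ)} {S : Set Cell}
    (hη : ∀ c ∈ S, ∀ k, c + dir k ∈ S → cl c k ∉ η) {c d : Cell} (hc : c ∈ S)
    (h : Relation.ReflTransGen (fun a b => Adj4 a b ∧ b ∈ S) c d) :
    d ∈ S ∧ DcX η (c + (1, 1)) (d + (1, 1)) := by
  induction h with
  | refl => exact ⟨hc, DcX.refl _ _⟩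
  | @tail a b _ hab ih =>
    obtain ⟨⟨j, hj⟩, hb⟩ := hab
    refine ⟨hb, ih.2.trans ?_⟩
    rw [hj] at hb ⊢
    exact dcX_step (hη a ih.1 j hb)

/-- **Non-interlacing**: in a good polyomino two disjoint connected sets of cells do not interlace
along the boundary walk. -/
theorem interlace {Q : Finset Cell} (hQ : Good Q) {s : Cell × ℤ} (hs : IsSide Q s) {N : ℕ}
    (hper : Eqv ((nextSide Q)^[N] s) s)
    (hinj : ∀ n < N, ∀ n' < N, Eqv ((nextSide Q)^[n] s) ((nextSide Q)^[n'] s) → n = n')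
    {r n1 u : ℕ} (h1 : 0 < r) (h2 : r < n1) (h3 : n1 < u) (h4 : u < N) {A B : Finset Cell}
    (hA : Conn4 (A : Set Cell)) (hB : Conn4 (B : Set Cell)) (hAB : Disjoint A B) (hAQ : A ⊆ Q)
    (hBQ : B ⊆ Q) (b0 : s.1 ∈ B) (b1 : ((nextSide Q)^[n1] s).1 ∈ B)
    (a0 : ((nextSide Q)^[r] s).1 ∈ A) (a1 : ((nextSide Q)^[u] s).1 ∈ A) : False := by
  classical
  set sd : ℕ → Cell × ℤ := fun n => (nextSide Q)^[n] s with hsd
  have hside : ∀ n, IsSide Q (sd n) := fun n => Pool.Agent.Q1.M4.isSide_iter hs n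
  have hsucc : ∀ n, sd (n + 1) = nextSide Q (sd n) := fun n => Function.iterate_succ_apply' _ _ _
  have htail : ∀ n, tail (sd (n + 1)) = head (sd n) := fun n => by
    rw [hsucc, Pool.Agent.Q1.M4.head_eq_tail_next]
  set e := Pool.Agent.Q1.M4.lab s with he
  set ω1 : Finset (ℤ × ℤ) := ((range N).filter (fun i => i ≠ 0 ∧ i ≠ n1)).image
    (fun i => Pool.Agent.Q1.M4.lab (sd i)) with hω1
  set ω := ω1 ∪ cellLabs A with hω
  have hlab : ∀ i < N, i ≠ 0 → i ≠ n1 → Pool.Agent.Q1.M4.lab (sd i) ∈ ω := by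
    intro i hi h0 hn1
    exact mem_union_left _ (mem_image.2 ⟨i, mem_filter.2 ⟨mem_range.2 hi, h0, hn1⟩, rfl⟩)
  -- labels outside
  have hnA : ∀ (c : Cell) (k : ℤ), c ∉ A → c + dir k ∉ A → cl c k ∉ cellLabs A := by
    intro c k hc hd h
    obtain ⟨a, ha, j, haj⟩ := mem_cellLabs.1 h
    unfold cl at haj
    rcases edge_cells haj with h5 | h5
    · exact hc (h5.1 ▸ ha)
    · exact hd (h5.2 ▸ (by rw [← h5.2]; exact (by
        have := h5.1
        have h6 : a = c + dir k := h5.1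
        rw [← h6]; exact ha)))
  have hn1' : ∀ (c : Cell) (k : ℤ), (c ∈ Q ↔ c + dir k ∈ Q) → cl c k ∉ ω1 ∧ cl c k ≠ e := by
    intro c k hc
    constructor
    · intro h
      obtain ⟨i, -, hi⟩ := mem_image.1 h
      exact Pool.Agent.Q1.M4.lab_ne (hside i) hc hi
    · intro h
      exact Pool.Agent.Q1.M4.lab_ne hs hc h.symm
  have hnot : ∀ (c : Cell) (k : ℤ), (c ∈ Q ↔ c + dir k ∈ Q) → c ∉ A → c + dir k ∉ A →
      cl c k ∉ insert e ω := by
    intro c k hc h5 h6 h
    rw [mem_insert, mem_union] at h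
    rcases h with h | h | h
    · exact (hn1' c k hc).2 h
    · exact (hn1' c k hc).1 h
    · exact hnA c k h5 h6 h
  have hBA : ∀ c ∈ B, c ∉ A := fun c hc h => (disjoint_left.1 hAB) h hc
  have hn1N : n1 < N := h3.trans h4
  -- the dual path
  have d1 : DcX (insert e ω) (s.1 + (1, 1)) ((sd n1).1 + (1, 1)) := by
    refine (dcX_path (S := (B : Set Cell)) (fun c hc k hk => ?_) b0 (hB _ b0 _ b1)).2
    exact hnot c k ⟨fun _ => hBQ hk, fun _ => hBQ hc⟩ (hBA c hc) (hBA _ hk)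
  have d2 : DcX (insert e ω) ((sd n1).1 + (1, 1))
      ((sd n1).1 + dir ((sd n1).2 - 1) + (1, 1)) := by
    refine dcX_step (fun h => ?_)
    rw [mem_insert, mem_union] at h
    have hl : cl (sd n1).1 ((sd n1).2 - 1) = Pool.Agent.Q1.M4.lab (sd n1) := rfl
    rcases h with h | h | h
    · rw [hl] at h
      have := Pool.Agent.Q1.M4.lab_inj (hside n1) hs h
      exact absurd (hinj n1 hn1N 0 (by omega) this) (by omega)
    · rw [hl] at h
      obtain ⟨i, hi, hi'⟩ := mem_image.1 h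
      rw [mem_filter, mem_range] at hi
      exact hi.2.2 (hinj i hi.1 n1 hn1N (Pool.Agent.Q1.M4.lab_inj (hside i) (hside n1) hi'))
    · refine hnA _ _ (hBA _ b1) (fun h5 => (hside n1).2 (hAQ h5)) h
  have d3 : DcX (insert e ω) ((sd n1).1 + dir ((sd n1).2 - 1) + (1, 1))
      (s.1 + dir (s.2 - 1) + (1, 1)) := by
    have hc1 : (sd n1).1 + dir ((sd n1).2 - 1) ∈ ((Q : Set Cell)ᶜ) := (hside n1).2
    have hc2 : s.1 + dir (s.2 - 1) ∈ ((Q : Set Cell)ᶜ) := hs.2
    refine (dcX_path (S := (Q : Set Cell)ᶜ) (fun c hc k hk => ?_) hc1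
      (hQ.conn_compl _ hc1 _ hc2)).2
    have hc' : c ∉ Q := hc
    have hk' : c + dir k ∉ Q := hk
    exact hnot c k ⟨fun h => absurd h hc', fun h => absurd h hk'⟩ (fun h => hc' (hAQ h))
      (fun h => hk' (hAQ h))
  have dual := (d1.trans d2).trans d3
  -- the primal path
  have walk : ∀ a b : ℕ, a ≤ b → b ≤ N → 0 < a → (∀ i, a ≤ i → i < b → i ≠ n1) →
      Co ω (tail (sd a)) (tail (sd b)) := by
    intro a b hab hbN ha hne
    induction b, hab using Nat.le_induction with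
    | base => exact Co.refl _ _
    | succ b hab ih =>
      have := ih (by omega) (fun i hi hi' => hne i hi (by omega))
      refine this.trans (Relation.ReflTransGen.single ?_)
      rw [htail]
      exact ad_side (hlab b (by omega) (by omega) (hne b hab (by omega)))
  have p1 : Co ω (head s) (tail (sd r)) := by
    have := walk 1 r h1 (by omega) one_pos (fun i _ hi => by omega)
    rwa [show tail (sd 1) = head s from htail 0] at this
  have p2 : Co ω (tail (sd r)) (tail (sd u)) :=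
    (co_cells (A := A) subset_union_right a0 (hA _ a0 _ a1) (sd r).2 (sd u).2).2
  have p3 : Co ω (tail (sd u)) (tail s) := by
    have := walk u N (by omega) le_rfl (by omega) (fun i hi _ => by omega)
    have hN : tail (sd N) = tail s := by
      unfold tail
      have h5 : (sd N).1 = s.1 := hper.1
      have h6 : ((sd N).2 - s.2) % 4 = 0 := hper.2
      rw [h5, show (sd N).2 % 4 = s.2 % 4 by omega]
    rwa [hN] at this
  have prim := (p1.trans p2).trans p3
  -- contradiction with duality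
  have hodd : (e.1 + e.2) % 2 = 1 := odd_cl s.1 (s.2 - 1)
  have heω : e ∉ ω := by
    rw [hω, mem_union]
    rintro (h | h)
    · obtain ⟨i, hi, hi'⟩ := mem_image.1 h
      rw [mem_filter, mem_range] at hi
      exact hi.2.1 (hinj i hi.1 0 (by omega) (Pool.Agent.Q1.M4.lab_inj (hside i) hs hi'))
    · exact hnA s.1 (s.2 - 1) (hBA _ b0) (fun h5 => hs.2 (hAQ h5)) h
  have hωodd : ∀ l ∈ ω, (l.1 + l.2) % 2 = 1 := by
    intro l hl
    rw [hω, mem_union] at hl
    rcases hl with h | h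
    · obtain ⟨i, -, rfl⟩ := mem_image.1 h
      exact odd_cl _ _
    · obtain ⟨a, -, j, rfl⟩ := mem_cellLabs.1 h
      exact odd_cl _ _
  obtain ⟨M1, hM1⟩ : ∃ M1 : ℤ, ∀ M, M1 ≤ M → ω ⊆ H75.TwoArm.BB M := by
    have key : ∀ T : Finset (ℤ × ℤ), (∀ l ∈ T, (l.1 + l.2) % 2 = 1) →
        ∃ M1 : ℤ, ∀ M, M1 ≤ M → T ⊆ H75.TwoArm.BB M := by
      intro T
      induction T using Finset.induction with
      | empty => intro _; exact ⟨0, fun M _ => empty_subset _⟩
      | insert l T _ ih =>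
        intro h
        obtain ⟨a, ha⟩ := ih (fun l hl => h l (mem_insert_of_mem hl))
        obtain ⟨b, hb⟩ := exists_BB l (h l (mem_insert_self _ _))
        refine ⟨max a b, fun M hM => insert_subset (hb M (le_trans (le_max_right _ _) hM))
          (ha M (le_trans (le_max_left _ _) hM))⟩
    exact key ω hωodd
  obtain ⟨M2, hM2⟩ := exists_BB e hodd
  obtain ⟨M3, hM3⟩ := dual
  set M := max (max M1 M2) M3 + 1 with hM
  have hMa : M1 ≤ M - 1 := by
    have := le_max_left M1 M2; have := le_max_left (max M1 M2) M3; omega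
  have hMb : M2 ≤ M - 1 := by
    have := le_max_right M1 M2; have := le_max_left (max M1 M2) M3; omega
  have hMc : M3 ≤ M := by
    have := le_max_right (max M1 M2) M3; omega
  have dd := hM3 M hMc
  have hends := Pool.Agent.H65.Dom.ends_of hodd (show IsUnit4 (head s - tail s) by
    unfold head; rw [add_sub_cancel_left]; exact isUnit4_dir _) (tail_add_head s)
  have hfaces := Pool.Agent.H65.Dom.faces_of (l := e) hodd
    (f := s.1 + (1, 1)) (g := s.1 + dir (s.2 - 1) + (1, 1))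
    (by
      have : s.1 + dir (s.2 - 1) + (1, 1) - (s.1 + (1, 1)) = dir (s.2 - 1) := by abel
      rw [this]; exact isUnit4_dir _)
    (by rw [he]; unfold Pool.Agent.Q1.M4.lab; abel)
  have hdu : Co (du (H75.TwoArm.BB M) (insert e ω)) (fi (zu e)) (fi (zv e)) := by
    rcases hfaces with ⟨h5, h6⟩ | ⟨h5, h6⟩
    · rw [← h5, ← h6]; exact dd
    · rw [← h5, ← h6]; exact dd.symm
  have hsep := (Pool.Agent.H65.Dom.sep_iff_dual hodd (hM2 _ hMb) (hM1 _ hMa)).2 hdu
  rw [erase_eq_of_notMem heω] at hsep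
  apply hsep
  rcases hends with ⟨h5, h6⟩ | ⟨h5, h6⟩
  · rw [← h5, ← h6]; exact prim.symm
  · rw [← h5, ← h6]; exact prim

end Pool.Agent.H78.Q1
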