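import Mathlib
import Pool.Agent.Q1.M4.Walk

set_option autoImplicit false
open Finset

/-! Module M5, C1': tiles, saturated sets of cells (no pinch points), components. -/

namespace Pool.Agent.H78.Q1

open Pool.Agent.H75.Perc (dir dir_cases)
open Pool.Agent.Q1.M4 (Cell Adj4 Conn4 Good IsSide nextSide tail head Eqv edge_cells dir_neg)

/-- The tile of a cell: runs of at most three cells of a row, shifted from row to row. -/
def tau (c : Cell) : Cell := ((c.1 - 1 - c.2 % 2) / 3, c.2)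

/-- Vertical boundary sides only on grid lines with index divisible by `3`. -/
def G3 (Q : Finset Cell) : Prop := ∀ a b : ℤ, ¬ (3 ∣ a) → ((a - 1, b) ∈ Q ↔ (a, b) ∈ Q)

/-- `A` is a union of tiles of `Q`. -/
structure Sat (Q A : Finset Cell) : Prop where
  sub : A ⊆ Q
  sat : ∀ c ∈ A, ∀ d ∈ Q, tau d = tau c → d ∈ A

lemma Sat.union {Q A A' : Finset Cell} (h : Sat Q A) (h' : Sat Q A') : Sat Q (A ∪ A') := by
  refine ⟨union_subset h.sub h'.sub, fun c hc d hd ht => ?_⟩
  rcases mem_union.1 hc with hc | hc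
  · exact mem_union_left _ (h.sat c hc d hd ht)
  · exact mem_union_right _ (h'.sat c hc d hd ht)

lemma Sat.sdiff {Q A : Finset Cell} (h : Sat Q A) : Sat Q (Q \ A) := by
  refine ⟨sdiff_subset, fun c hc d hd ht => ?_⟩
  rw [mem_sdiff] at hc ⊢
  exact ⟨hd, fun hA => hc.2 (h.sat d hA c hc.1 ht.symm)⟩

lemma Sat.empty (Q : Finset Cell) : Sat Q ∅ :=
  ⟨empty_subset _, fun c hc => absurd hc (notMem_empty c)⟩

/-- At every grid vertex off the lines divisible by `3` at most one of the two rows has a joint. -/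
lemma tau_row {i j : ℤ} (h : ¬ (3 : ℤ) ∣ i + 1) (h2 : tau (i + 1, j) ≠ tau (i, j)) :
    tau (i + 1, j + 1) = tau (i, j + 1) := by
  unfold tau at h2 ⊢
  simp only [Prod.mk.injEq, and_true, ne_eq] at h2 ⊢
  have h3 : i % 3 = 0 ∨ i % 3 = 1 := by omega
  have h4 : j % 2 = 0 ∨ j % 2 = 1 := by omega
  rcases h4 with h4 | h4
  · have h5 : (j + 1) % 2 = 1 := by omega
    rw [h5]
    rw [h4] at h2
    rcases h3 with h3 | h3 <;> omega
  · have h5 : (j + 1) % 2 = 0 := by omega
    rw [h5]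
    rw [h4] at h2
    rcases h3 with h3 | h3 <;> omega

/-- No pinch (first diagonal). -/
lemma np1 {Q A : Finset Cell} (hQ : Good Q) (h3 : G3 Q) (hA : Sat Q A) {c : Cell} (hc : c ∈ A)
    (hd : c + (1, 1) ∈ A) : c + (1, 0) ∈ A ∨ c + (0, 1) ∈ A := by
  obtain ⟨i, j⟩ := c
  simp only [Prod.mk_add_mk, add_zero] at *
  have hcQ := hA.sub hc
  have hdQ := hA.sub hd
  by_cases h : (3 : ℤ) ∣ i + 1
  · obtain ⟨t, ht⟩ := h
    have := hQ.diag1 (i, j) hcQ (by simpa using hdQ)
    simp only [Prod.mk_add_mk, add_zero] at this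
    rcases this with h1 | h1
    · left
      refine hA.sat _ hc _ h1 ?_
      unfold tau
      simp only [Prod.mk.injEq, and_true]
      omega
    · right
      refine hA.sat _ hd _ h1 ?_
      unfold tau
      simp only [Prod.mk.injEq, and_true]
      omega
  · have e1 := h3 (i + 1) j h
    have e2 := h3 (i + 1) (j + 1) h
    rw [add_sub_cancel_right] at e1 e2
    have q1 := e1.1 hcQ
    have q2 := e2.2 hdQ
    by_cases h2 : tau (i + 1, j) = tau (i, j)
    · exact Or.inl (hA.sat _ hc _ q1 h2)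
    · right
      exact hA.sat _ hd _ q2 (tau_row h h2).symm

/-- No pinch (second diagonal). -/
lemma np2 {Q A : Finset Cell} (hQ : Good Q) (h3 : G3 Q) (hA : Sat Q A) {c : Cell}
    (hc : c + (1, 0) ∈ A) (hd : c + (0, 1) ∈ A) : c ∈ A ∨ c + (1, 1) ∈ A := by
  obtain ⟨i, j⟩ := c
  simp only [Prod.mk_add_mk, add_zero] at *
  have hcQ := hA.sub hc
  have hdQ := hA.sub hd
  by_cases h : (3 : ℤ) ∣ i + 1
  · obtain ⟨t, ht⟩ := h
    have := hQ.diag2 (i, j) (by simpa using hcQ) (by simpa using hdQ)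
    simp only [Prod.mk_add_mk] at this
    rcases this with h1 | h1
    · left
      refine hA.sat _ hc _ h1 ?_
      unfold tau
      simp only [Prod.mk.injEq, and_true]
      omega
    · right
      refine hA.sat _ hd _ h1 ?_
      unfold tau
      simp only [Prod.mk.injEq, and_true]
      omega
  · have e1 := h3 (i + 1) j h
    have e2 := h3 (i + 1) (j + 1) h
    rw [add_sub_cancel_right] at e1 e2
    have q1 := e1.2 hcQ
    have q2 := e2.1 hdQ
    by_cases h2 : tau (i, j) = tau (i + 1, j)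
    · exact Or.inl (hA.sat _ hc _ q1 h2)
    · right
      exact hA.sat _ hd _ q2 (tau_row h (fun e => h2 e.symm))

/-- Tiles are connected: two cells of `Q` in the same tile are joined inside this tile. -/
lemma tile_conn {Q : Finset Cell} (h3 : G3 Q) {c d : Cell} (hc : c ∈ Q) (hd : d ∈ Q)
    (ht : tau d = tau c) :
    Relation.ReflTransGen (fun a b => Adj4 a b ∧ b ∈ ({e | e ∈ Q ∧ tau e = tau c} : Set Cell))
      c d := by
  obtain ⟨i, j⟩ := c
  obtain ⟨i', j'⟩ := d
  have ht' := ht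
  unfold tau at ht'
  simp only [Prod.mk.injEq] at ht'
  obtain ⟨h1, rfl⟩ := ht'
  have adjR : ∀ k : ℤ, Adj4 (k, j') (k + 1, j') := fun k => ⟨0, by
    unfold dir; simp⟩
  have adjL : ∀ k : ℤ, Adj4 (k + 1, j') (k, j') := fun k => ⟨2, by
    unfold dir; simp⟩
  -- cells between
  have mid : ∀ a b : ℤ, (a - 1 - j' % 2) / 3 = (i - 1 - j' % 2) / 3 →
      (b - 1 - j' % 2) / 3 = (i - 1 - j' % 2) / 3 → b = a + 2 → (a, j') ∈ Q → (b, j') ∈ Q →
      (a + 1, j') ∈ Q := by
    intro a b ha hb hab hqa hqb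
    by_cases h : (3 : ℤ) ∣ a + 1
    · have h' : ¬ (3 : ℤ) ∣ b := by omega
      have := (h3 b j' h').2 hqb
      rwa [show b - 1 = a + 1 by omega] at this
    · have := (h3 (a + 1) j' h)
      rw [add_sub_cancel_right] at this
      exact this.1 hqa
  have hcase : i' = i ∨ i' = i + 1 ∨ i' = i + 2 ∨ i = i' + 1 ∨ i = i' + 2 := by omega
  rcases hcase with rfl | rfl | rfl | rfl | rfl
  · exact Relation.ReflTransGen.refl
  · exact Relation.ReflTransGen.single ⟨adjR i, hd, ht⟩
  · have hm := mid i (i + 2) rfl h1 rfl hc hd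
    have htm : tau (i + 1, j') = tau (i, j') := by
      unfold tau; simp only [Prod.mk.injEq, and_true]; omega
    have e : (i + 2, j') = (i + 1 + 1, j') := by rw [add_assoc]; rfl
    refine Relation.ReflTransGen.tail (Relation.ReflTransGen.single ⟨adjR i, hm, htm⟩) ⟨?_, hd, ht⟩
    rw [e]; exact adjR (i + 1)
  · exact Relation.ReflTransGen.single ⟨adjL i', hd, ht⟩
  · have hm := mid i' (i' + 2) h1 rfl rfl hd hc
    have htm : tau (i' + 1, j') = tau (i' + 2, j') := by
      unfold tau; simp only [Prod.mk.injEq, and_true]; omega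
    have e : (i' + 2, j') = (i' + 1 + 1, j') := by rw [add_assoc]; rfl
    refine Relation.ReflTransGen.tail (Relation.ReflTransGen.single ⟨?_, hm, htm⟩)
      ⟨adjL i', hd, ht⟩
    rw [e]; exact adjL (i' + 1)

/-! ### Components -/

lemma adj4_symm {c d : Cell} (h : Adj4 c d) : Adj4 d c := by
  obtain ⟨k, rfl⟩ := h
  refine ⟨k + 2, ?_⟩
  rw [dir_neg]
  abel

/-- `d` can be reached from `c` inside `S`. -/
def Rch (S : Set Cell) (c d : Cell) : Prop :=
  Relation.ReflTransGen (fun a b => Adj4 a b ∧ b ∈ S) c d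

lemma Rch.refl (S : Set Cell) (c : Cell) : Rch S c c := Relation.ReflTransGen.refl

lemma Rch.trans {S : Set Cell} {c d e : Cell} (h : Rch S c d) (h' : Rch S d e) : Rch S c e :=
  Relation.ReflTransGen.trans h h'

lemma Rch.mem {S : Set Cell} {c d : Cell} (h : Rch S c d) (hc : c ∈ S) : d ∈ S := by
  induction h with
  | refl => exact hc
  | tail _ hbc _ => exact hbc.2

lemma Rch.mono {S S' : Set Cell} {c d : Cell} (h : Rch S c d) (hS : S ⊆ S') : Rch S' c d := by
  induction h with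
  | refl => exact Rch.refl _ _
  | tail _ hbc ih => exact Relation.ReflTransGen.tail ih ⟨hbc.1, hS hbc.2⟩

lemma Rch.symm {S : Set Cell} {c d : Cell} (h : Rch S c d) (hc : c ∈ S) : Rch S d c := by
  induction h with
  | refl => exact Rch.refl _ _
  | @tail a b hab hbc ih =>
    have ha : a ∈ S := Rch.mem hab hc
    exact Relation.ReflTransGen.head ⟨adj4_symm hbc.1, ha⟩ ih

lemma Rch.single {S : Set Cell} {c d : Cell} (h : Adj4 c d) (hd : d ∈ S) : Rch S c d :=
  Relation.ReflTransGen.single ⟨h, hd⟩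

open Classical in
/-- Component of `c` in `S`. -/
noncomputable def comp (S : Finset Cell) (c : Cell) : Finset Cell :=
  S.filter (fun d => Rch (S : Set Cell) c d)

lemma mem_comp {S : Finset Cell} {c d : Cell} : d ∈ comp S c ↔ d ∈ S ∧ Rch (S : Set Cell) c d := by
  classical
  unfold comp
  rw [mem_filter]

lemma comp_sub (S : Finset Cell) (c : Cell) : comp S c ⊆ S := fun _ h => (mem_comp.1 h).1

lemma self_mem_comp {S : Finset Cell} {c : Cell} (h : c ∈ S) : c ∈ comp S c :=
  mem_comp.2 ⟨h, Rch.refl _ _⟩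

lemma comp_adj {S : Finset Cell} {c d e : Cell} (hd : d ∈ comp S c) (h : Adj4 d e) (he : e ∈ S) :
    e ∈ comp S c := by
  rw [mem_comp] at hd ⊢
  exact ⟨he, Relation.ReflTransGen.tail hd.2 ⟨h, he⟩⟩

lemma comp_rch {S : Finset Cell} {c d e : Cell} (hd : d ∈ comp S c)
    (h : Rch (S : Set Cell) d e) : e ∈ comp S c ∧ Rch (comp S c : Set Cell) d e := by
  induction h with
  | refl => exact ⟨hd, Rch.refl _ _⟩
  | @tail a b _ hab ih =>
    have hb := comp_adj ih.1 hab.1 hab.2
    exact ⟨hb, Relation.ReflTransGen.tail ih.2 ⟨hab.1, hb⟩⟩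

lemma comp_conn {S : Finset Cell} {c : Cell} (hc : c ∈ S) : Conn4 (comp S c : Set Cell) := by
  intro d hd e he
  have hd' := mem_comp.1 hd
  have he' := mem_comp.1 he
  have h1 : Rch (S : Set Cell) d c := hd'.2.symm hc
  exact (comp_rch (c := c) hd (h1.trans he'.2)).2

lemma comp_eq {S : Finset Cell} {c d : Cell} (hc : c ∈ S) (hd : d ∈ comp S c) :
    comp S d = comp S c := by
  have hd' := mem_comp.1 hd
  ext e
  rw [mem_comp, mem_comp]
  exact and_congr_right fun _ => ⟨fun h => hd'.2.trans h, fun h => (hd'.2.symm hc).trans h⟩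

lemma comp_sat {Q A : Finset Cell} (h3 : G3 Q) (hA : Sat Q A) {c : Cell} : Sat Q (comp A c) := by
  refine ⟨(comp_sub _ _).trans hA.sub, fun d hd e he ht => ?_⟩
  have hd' := mem_comp.1 hd
  have hdQ := hA.sub hd'.1
  have h1 := tile_conn h3 hdQ he ht
  have h2 : Rch (A : Set Cell) d e := by
    refine Rch.mono h1 ?_
    rintro x ⟨hx, hx'⟩
    exact hA.sat d hd'.1 x hx hx'
  exact (comp_rch hd h2).1

/-- The complement of `K ⊆ Q` is connected if from every cell of `Q \ K` one can leave `Q` off `K`. -/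
lemma compl_conn {Q K : Finset Cell} (hQ : Good Q) (hK : K ⊆ Q)
    (h : ∀ d ∈ Q, d ∉ K → ∃ e, e ∉ Q ∧ Rch ((K : Set Cell)ᶜ) d e) : Conn4 ((K : Set Cell)ᶜ) := by
  have hsub : ((Q : Set Cell)ᶜ) ⊆ ((K : Set Cell)ᶜ) := fun x hx hxK => hx (hK hxK)
  have key : ∀ d, d ∉ K → ∃ e, e ∉ Q ∧ Rch ((K : Set Cell)ᶜ) d e := by
    intro d hd
    by_cases hdQ : d ∈ Q
    · exact h d hdQ hd
    · exact ⟨d, hdQ, Rch.refl _ _⟩
  intro c hc d hd
  have hc' : c ∉ K := hc
  have hd' : d ∉ K := hd
  obtain ⟨e, he, h1⟩ := key c hc'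
  obtain ⟨f, hf, h2⟩ := key d hd'
  have h3 : Rch ((K : Set Cell)ᶜ) e f := Rch.mono (hQ.conn_compl e he f hf) hsub
  exact (h1.trans h3).trans (h2.symm hd)

/-- A component of a saturated set is good if the complement is connected. -/
lemma comp_good {Q A : Finset Cell} (hQ : Good Q) (h3 : G3 Q) (hA : Sat Q A) {c : Cell}
    (hc : c ∈ A) (hcompl : Conn4 ((comp A c : Set Cell)ᶜ)) : Good (comp A c) := by
  refine ⟨⟨c, self_mem_comp hc⟩, comp_conn hc, hcompl, fun d hd hd' => ?_, fun d hd hd' => ?_⟩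
  · have h1 := (comp_sub _ _) hd
    have h2 := (comp_sub _ _) hd'
    rcases np1 hQ h3 hA h1 h2 with h | h
    · exact Or.inl (comp_adj hd ⟨0, by unfold dir; simp⟩ h)
    · exact Or.inr (comp_adj hd ⟨1, by unfold dir; simp⟩ h)
  · have h1 := (comp_sub _ _) hd
    have h2 := (comp_sub _ _) hd'
    rcases np2 hQ h3 hA h1 h2 with h | h
    · refine Or.inl (comp_adj hd ⟨2, ?_⟩ h)
      unfold dir; simp only [add_assoc]; simp
    · refine Or.inr (comp_adj hd ⟨1, ?_⟩ h)
      unfold dir; simp only [add_assoc]; simp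

/-- Leaving a component of `S ⊆ Q` inside the connected set `Q`. -/
lemma exit_comp {Q S : Finset Cell} (hQ : Conn4 (Q : Set Cell)) (hS : S ⊆ Q) {d c : Cell}
    (hd : d ∈ S) (hc : c ∈ Q) (hcd : c ∉ comp S d) :
    ∃ x y, x ∈ comp S d ∧ Adj4 x y ∧ y ∈ Q ∧ y ∉ S := by
  have h := hQ d (hS hd) c hc
  have key : ∀ e, Rch (Q : Set Cell) d e → e ∈ comp S d ∨
      ∃ x y, x ∈ comp S d ∧ Adj4 x y ∧ y ∈ Q ∧ y ∉ S := by
    intro e he
    induction he with
    | refl => exact Or.inl (self_mem_comp hd)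
    | @tail a b _ hab ih =>
      rcases ih with ih | ih
      · by_cases hb : b ∈ S
        · exact Or.inl (comp_adj ih hab.1 hb)
        · exact Or.inr ⟨a, b, ih, hab.1, hab.2, hb⟩
      · exact Or.inr ih
  rcases key c h with h1 | h1
  · exact absurd h1 hcd
  · exact h1

end Pool.Agent.H78.Q1
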