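import Mathlib
import Pool.Agent.H78.Q1.Tile
import Pool.Agent.H78.Q1.Interlace

set_option autoImplicit false
open Finset

/-! Module M5, C1': the component of the root in the complement of a hull, and the components of a
hull, as types. -/

namespace Pool.Agent.H78.Q1

open Pool.Agent.H75.Perc (dir dir_cases)
open Pool.Agent.Q1.M4 (Cell Adj4 Conn4 Good IsSide nextSide tail head Eqv edge_cells dir_neg
  PType isSide_iter isSide_next next_inj head_eq_tail_next)

variable {P : PType}

/-! ### The boundary walk -/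

lemma side_succ (P : PType) (n : ℕ) : P.side (n + 1) = nextSide P.Q (P.side n) :=
  Function.iterate_succ_apply' _ _ _

lemma side_add (P : PType) (n k : ℕ) : P.side (n + k) = (nextSide P.Q)^[n] (P.side k) :=
  Function.iterate_add_apply _ _ _ _

lemma isSide_side (P : PType) (n : ℕ) : IsSide P.Q (P.side n) := isSide_iter P.side0 n

lemma side_period (P : PType) (n : ℕ) : Eqv (P.side (n + P.N)) (P.side n) := by
  have h : Eqv (P.side P.N) P.s0 := by
    unfold PType.side
    rw [P.period]
    exact ⟨rfl, by simp⟩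
  rw [side_add]
  exact h.iter' n

lemma N_pos (P : PType) : 0 < P.N := lt_trans P.hm0 P.hmN

lemma side_mod (P : PType) (n : ℕ) : Eqv (P.side n) (P.side (n % P.N)) := by
  have key : ∀ q r : ℕ, Eqv (P.side (r + P.N * q)) (P.side r) := by
    intro q
    induction q with
    | zero => intro r; simpa using Eqv.refl _
    | succ q ih =>
      intro r
      have h1 := side_period P (r + P.N * q)
      rw [show r + P.N * (q + 1) = r + P.N * q + P.N by ring]
      exact h1.trans (ih r)
  have := key (n / P.N) (n % P.N)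
  rwa [Nat.mod_add_div] at this

lemma side_inj (P : PType) {n n' : ℕ} (h : Eqv (P.side n) (P.side n')) :
    n % P.N = n' % P.N := by
  have h1 := ((side_mod P n).symm.trans h).trans (side_mod P n')
  exact P.inj _ (Nat.mod_lt _ (N_pos P)) _ (Nat.mod_lt _ (N_pos P)) h1.1 h1.2

lemma cell_period (P : PType) (n : ℕ) : (P.side (n + P.N)).1 = (P.side n).1 := (side_period P n).1

/-- Non-interlacing for a type. -/
lemma interlaceP (P : PType) {i0 r i1 u : ℕ} (h1 : i0 < r) (h2 : r < i1) (h3 : i1 < u)
    (h4 : u < i0 + P.N) {A B : Finset Cell}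
    (hA : Conn4 (A : Set Cell)) (hB : Conn4 (B : Set Cell)) (hAB : Disjoint A B) (hAQ : A ⊆ P.Q)
    (hBQ : B ⊆ P.Q) (b0 : (P.side i0).1 ∈ B) (b1 : (P.side i1).1 ∈ B)
    (a0 : (P.side r).1 ∈ A) (a1 : (P.side u).1 ∈ A) : False := by
  refine interlace P.good (isSide_side P i0) (N := P.N) ?_ ?_ (r := r - i0) (n1 := i1 - i0)
    (u := u - i0) (by omega) (by omega) (by omega) (by omega) hA hB hAB hAQ hBQ b0 ?_ ?_ ?_
  · rw [← side_add, add_comm]; exact side_period P i0
  · intro n hn n' hn' h
    rw [← side_add, ← side_add] at h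
    have h5 := side_inj P h
    have h6 : (n + i0) ≡ (n' + i0) [MOD P.N] := h5
    have h7 := Nat.ModEq.add_right_cancel' i0 h6
    exact Nat.ModEq.eq_of_lt_of_lt h7 hn hn'
  · rw [← side_add, show i1 - i0 + i0 = i1 by omega]; exact b1
  · rw [← side_add, show r - i0 + i0 = r by omega]; exact a0
  · rw [← side_add, show u - i0 + i0 = u by omega]; exact a1

/-! ### Consecutive sides -/

/-- At a reflex corner of `Q` the middle cell belongs to a saturated set containing both ends. -/
lemma reflex_mid {Q S : Finset Cell} (hQ : Good Q) (h3 : G3 Q) (hS : Sat Q S) {c : Cell} {k : ℤ}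
    (hs2 : c + dir (k - 1) ∉ Q) (h0 : c ∈ S) (h1 : c + dir k + dir (k - 1) ∈ S) :
    c + dir k ∈ S := by
  obtain ⟨i, j⟩ := c
  rcases dir_cases k with ⟨a, e⟩ | ⟨a, e⟩ | ⟨a, e⟩ | ⟨a, e⟩ <;>
  rcases dir_cases (k - 1) with ⟨b, f⟩ | ⟨b, f⟩ | ⟨b, f⟩ | ⟨b, f⟩ <;>
  first
  | (exfalso; omega)
  | (rw [e, f] at h1
     rw [f] at hs2
     rw [e]
     simp only [Prod.mk_add_mk, add_zero] at *)
  · -- east, south
    have := np2 hQ h3 hS (c := (i, j - 1)) (by simpa [sub_eq_add_neg] using h1)
      (by simpa using h0)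
    simp only [Prod.mk_add_mk] at this
    rcases this with h | h
    · exact absurd (hS.sub h) (by simpa [sub_eq_add_neg] using hs2)
    · simpa using h
  · -- north, east
    have := np1 hQ h3 hS (c := (i, j)) (by simpa using h0) (by simpa using h1)
    simp only [Prod.mk_add_mk] at this
    rcases this with h | h
    · exact absurd (hS.sub h) (by simpa using hs2)
    · simpa using h
  · -- west, north
    have := np2 hQ h3 hS (c := (i - 1, j)) (by simpa using h0)
      (by simpa [sub_eq_add_neg] using h1)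
    simp only [Prod.mk_add_mk] at this
    rcases this with h | h
    · simpa [sub_eq_add_neg] using h
    · exact absurd (hS.sub h) (by simpa using hs2)
  · -- south, west
    have := np1 hQ h3 hS (c := (i - 1, j - 1))
      (by simpa [sub_eq_add_neg] using h1) (by simpa using h0)
    simp only [Prod.mk_add_mk] at this
    rcases this with h | h
    · simpa [sub_eq_add_neg] using h
    · exact absurd (hS.sub h) (by simpa [sub_eq_add_neg] using hs2)

/-- The cells of two consecutive sides are equal, adjacent, or diagonal with a common neighbour. -/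
lemma consec {Q S : Finset Cell} (hQ : Good Q) (h3 : G3 Q) (hS : Sat Q S) {s : Cell × ℤ}
    (hs : IsSide Q s) (h0 : s.1 ∈ S) (h1 : (nextSide Q s).1 ∈ S) :
    Rch (S : Set Cell) s.1 (nextSide Q s).1 := by
  obtain ⟨c, k⟩ := s
  obtain ⟨hs1, hs2⟩ := hs
  unfold nextSide at h1 ⊢
  simp only at hs1 hs2 h0 h1 ⊢
  split_ifs at h1 ⊢ with ha hb
  · -- reflex
    simp only at h1 ⊢
    have hmid : c + dir k ∈ S := reflex_mid hQ h3 hS hs2 h0 h1
    exact (Rch.single ⟨k, rfl⟩ hmid).trans (Rch.single ⟨k - 1, rfl⟩ h1)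
  · exact Rch.single ⟨k, rfl⟩ h1
  · exact Rch.refl _ _

/-- The walk around `K ⊆ Q` agrees with the walk around `Q` as long as the cells stay in `K`. -/
lemma next_agree {Q K : Finset Cell} (hK : K ⊆ Q) {s : Cell × ℤ}
    (h1 : (nextSide Q s).1 ∈ K) : nextSide K s = nextSide Q s := by
  obtain ⟨c, k⟩ := s
  unfold nextSide at h1 ⊢
  simp only at h1 ⊢
  by_cases ha : c + dir k + dir (k - 1) ∈ Q
  · rw [if_pos ha] at h1 ⊢
    rw [if_pos h1]
  · rw [if_neg ha] at h1 ⊢
    have ha' : c + dir k + dir (k - 1) ∉ K := fun h => ha (hK h)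
    rw [if_neg ha']
    by_cases hb : c + dir k ∈ Q
    · rw [if_pos hb] at h1 ⊢
      rw [if_pos h1]
    · rw [if_neg hb] at h1 ⊢
      have hb' : c + dir k ∉ K := fun h => hb (hK h)
      rw [if_neg hb']

lemma walk_agree {K : Finset Cell} (hK : K ⊆ P.Q) {a : ℕ} (b : ℕ)
    (h : ∀ i, i ≤ b → (P.side (a + i)).1 ∈ K) : ∀ i, i ≤ b →
      (nextSide K)^[i] (P.side a) = P.side (a + i) := by
  intro i hi
  induction i with
  | zero => rfl
  | succ i ih =>
    rw [Function.iterate_succ_apply', ih (by omega)]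
    have h1 := h (i + 1) hi
    have h2 : P.side (a + (i + 1)) = nextSide P.Q (P.side (a + i)) := side_succ P (a + i)
    rw [h2] at h1 ⊢
    exact next_agree hK h1

lemma isSide_sub {K : Finset Cell} (hK : K ⊆ P.Q) {n : ℕ} (h : (P.side n).1 ∈ K) :
    IsSide K (P.side n) := ⟨h, fun h' => (isSide_side P n).2 (hK h')⟩

/-! ### Hulls -/

/-- `A` is a hull for the root `v = P.vert n1`: a union of tiles which does not contain the two
cells at the root nor the cell of the last wired side, and every cell of which can be joined inside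
`A` to a side `r` with `n1 < r < m`. -/
structure IsHull (P : PType) (n1 : ℕ) (A : Finset Cell) : Prop where
  sat : Sat P.Q A
  root : (P.side n1).1 ∉ A
  root' : (P.side (n1 - 1)).1 ∉ A
  mark : (P.side (P.N - 1)).1 ∉ A
  att : ∀ c ∈ A, ∃ r, n1 < r ∧ r < P.m ∧ Rch (A : Set Cell) c (P.side r).1

lemma IsHull.empty (P : PType) (n1 : ℕ) : IsHull P n1 ∅ :=
  ⟨Sat.empty _, notMem_empty _, notMem_empty _, notMem_empty _,
    fun c hc => absurd hc (notMem_empty c)⟩

lemma IsHull.union {n1 : ℕ} {A A' : Finset Cell} (h : IsHull P n1 A) (h' : IsHull P n1 A') :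
    IsHull P n1 (A ∪ A') := by
  refine ⟨h.sat.union h'.sat, ?_, ?_, ?_, fun c hc => ?_⟩
  · rw [mem_union]; exact fun h1 => h1.elim h.root h'.root
  · rw [mem_union]; exact fun h1 => h1.elim h.root' h'.root'
  · rw [mem_union]; exact fun h1 => h1.elim h.mark h'.mark
  · rcases mem_union.1 hc with hc | hc
    · obtain ⟨r, h1, h2, h3⟩ := h.att c hc
      exact ⟨r, h1, h2, h3.mono (by simp)⟩
    · obtain ⟨r, h1, h2, h3⟩ := h'.att c hc
      exact ⟨r, h1, h2, h3.mono (by simp)⟩

/-- The component of the root in the complement of the hull. -/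
noncomputable def rootC (P : PType) (n1 : ℕ) (A : Finset Cell) : Finset Cell :=
  comp (P.Q \ A) (P.side n1).1

section
variable {n1 : ℕ} {A : Finset Cell}

lemma IsHull.root_mem (h : IsHull P n1 A) : (P.side n1).1 ∈ P.Q \ A :=
  mem_sdiff.2 ⟨(isSide_side P n1).1, h.root⟩

lemma IsHull.rootC_sub (_h : IsHull P n1 A) : rootC P n1 A ⊆ P.Q :=
  (comp_sub _ _).trans sdiff_subset

/-- Cells of `A` leave `Q` off the root component. -/
lemma IsHull.leave (h : IsHull P n1 A) {d : Cell} (hd : d ∈ A) {K : Finset Cell}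
    (hK : Disjoint A K) (hKQ : K ⊆ P.Q) : ∃ e, e ∉ P.Q ∧ Rch ((K : Set Cell)ᶜ) d e := by
  obtain ⟨r, -, -, h3⟩ := h.att d hd
  have hs := (isSide_side P r).2
  refine ⟨_, hs, ?_⟩
  have h4 : Rch ((K : Set Cell)ᶜ) d (P.side r).1 :=
    h3.mono (fun x hx hxK => (disjoint_left.1 hK) hx hxK)
  exact h4.trans (Rch.single ⟨_, rfl⟩ (fun hx => hs (hKQ hx)))

lemma IsHull.disj_rootC (_h : IsHull P n1 A) : Disjoint A (rootC P n1 A) := by
  rw [disjoint_left]
  intro x hx hx'
  exact (mem_sdiff.1 (comp_sub _ _ hx')).2 hx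

/-- **The root component is good.** -/
theorem IsHull.good (h3 : G3 P.Q) (h : IsHull P n1 A) : Good (rootC P n1 A) := by
  refine comp_good P.good h3 h.sat.sdiff h.root_mem ?_
  refine compl_conn P.good h.rootC_sub (fun d hd hdK => ?_)
  by_cases hdA : d ∈ A
  · exact h.leave hdA h.disj_rootC h.rootC_sub
  · have hdS : d ∈ P.Q \ A := mem_sdiff.2 ⟨hd, hdA⟩
    have hne : (P.side n1).1 ∉ comp (P.Q \ A) d := by
      intro hc
      apply hdK
      have := comp_eq hdS hc
      have h5 := self_mem_comp hdS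
      rw [← this] at h5
      exact h5
    obtain ⟨x, y, hx, hxy, hyQ, hyS⟩ := exit_comp P.good.conn sdiff_subset hdS
      (isSide_side P n1).1 hne
    have hyA : y ∈ A := by
      by_contra hyA
      exact hyS (mem_sdiff.2 ⟨hyQ, hyA⟩)
    obtain ⟨e, he, h1⟩ := h.leave hyA h.disj_rootC h.rootC_sub
    refine ⟨e, he, ?_⟩
    have hdisj : ∀ z ∈ comp (P.Q \ A) d, z ∉ rootC P n1 A := by
      intro z hz hz'
      have e1 := comp_eq hdS hz
      have e2 := comp_eq h.root_mem hz'
      apply hne
      rw [← e1, e2]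
      exact self_mem_comp h.root_mem
    have h2 : Rch ((rootC P n1 A : Set Cell)ᶜ) d x := by
      have := comp_conn hdS d (self_mem_comp hdS) x hx
      exact Rch.mono this (fun z hz hz' => hdisj z hz hz')
    have h4 : Rch ((rootC P n1 A : Set Cell)ᶜ) x y :=
      Rch.single hxy (fun hy => (disjoint_left.1 h.disj_rootC) hyA hy)
    exact (h2.trans h4).trans h1

/-- From a wired side in the root component on, all sides up to the root are in the root
component. -/
theorem IsHull.arc (h3 : G3 P.Q) (h : IsHull P n1 A) {t : ℕ} (ht : P.m ≤ t)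
    (htK : (P.side t).1 ∈ rootC P n1 A) :
    ∀ u, t ≤ u → u ≤ P.N + n1 → (P.side u).1 ∈ rootC P n1 A := by
  intro u htu
  induction u, htu using Nat.le_induction with
  | base => exact fun _ => htK
  | succ u hu ih =>
    intro hle
    have ihu := ih (by omega)
    by_contra hcon
    rcases eq_or_lt_of_le hle with heq | hlt
    · -- the index of the root itself
      apply hcon
      rw [heq, add_comm, cell_period]
      exact self_mem_comp h.root_mem
    · have huA : (P.side (u + 1)).1 ∈ A := by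
        by_contra hA
        apply hcon
        have h1 : (P.side (u + 1)).1 ∈ P.Q \ A := mem_sdiff.2 ⟨(isSide_side P _).1, hA⟩
        have h2 : (P.side u).1 ∈ P.Q \ A := comp_sub _ _ ihu
        have h4 := consec P.good h3 h.sat.sdiff (isSide_side P u) h2 (by rw [← side_succ]; exact h1)
        rw [← side_succ] at h4
        exact (comp_rch ihu h4).1
      obtain ⟨r, hr1, hr2, hr3⟩ := h.att _ huA
      have hcA : (P.side r).1 ∈ comp A (P.side (u + 1)).1 := mem_comp.2 ⟨hr3.mem huA, hr3⟩
      refine interlaceP P (i0 := n1) (r := r) (i1 := t) (u := u + 1) hr1 (by omega) (by omega)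
        (by omega) (comp_conn huA) (comp_conn h.root_mem) ?_ ((comp_sub _ _).trans h.sat.sub)
        h.rootC_sub (self_mem_comp h.root_mem) htK hcA (self_mem_comp huA)
      exact disjoint_of_subset_left (comp_sub _ _) h.disj_rootC

/-! ### The root component as a type -/

lemma eqv_next_iter {Q : Finset Cell} {s t : Cell × ℤ} (h : Eqv s t) (n : ℕ) :
    Eqv ((nextSide Q)^[n] s) ((nextSide Q)^[n] t) := h.iter' n

/-- **The root component as a type.** -/
theorem IsHull.exists_type (h3 : G3 P.Q) (h : IsHull P n1 A) (hn0 : 0 < n1) (hn : n1 < P.m)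
    {t : ℕ} (ht : P.m ≤ t) (htN : t < P.N) (htK : (P.side t).1 ∈ rootC P n1 A) :
    ∃ (P' : PType) (t0 : ℕ), P.m ≤ t0 ∧ t0 < P.N ∧ P'.Q = rootC P n1 A ∧ P'.s0 = P.s0 ∧
      (∀ i ≤ n1, P'.side i = P.side i) ∧ n1 < P'.m ∧
      (∀ u, P.m ≤ u → u < P.N → ((P.side u).1 ∈ rootC P n1 A ↔ t0 ≤ u)) ∧
      P'.N = P'.m + (P.N - t0) ∧
      (∀ i < P.N - t0, Eqv (P'.side (P'.m + i)) (P.side (t0 + i))) := by
  classical
  set K := rootC P n1 A with hK
  have hKQ : K ⊆ P.Q := h.rootC_sub
  -- the first wired side in `K`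
  have hex : ∃ u, P.m ≤ u ∧ u < P.N ∧ (P.side u).1 ∈ K := ⟨t, ht, htN, htK⟩
  obtain ⟨ht1, ht2, ht3⟩ := Nat.find_spec hex
  set t0 := Nat.find hex with ht0
  have harc := h.arc h3 ht1 ht3
  have hiff : ∀ u, P.m ≤ u → u < P.N → ((P.side u).1 ∈ K ↔ t0 ≤ u) := by
    intro u hu1 hu2
    constructor
    · intro hu
      exact Nat.find_min' hex ⟨hu1, hu2, hu⟩
    · intro hu
      exact harc u hu (by omega)
  have hfree : ∀ i, i ≤ n1 → (P.side i).1 ∈ K := by
    intro i hi
    have := harc (i + P.N) (by omega) (by omega)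
    rwa [cell_period] at this
  have hs0 : IsSide K (P.side 0) := isSide_sub hKQ (hfree 0 (by omega))
  obtain ⟨N', hN', hper, hall, hinj⟩ := Pool.Agent.Q1.M4.walk (h.good h3) hs0
  have hinj' : ∀ n < N', ∀ n' < N',
      Eqv ((nextSide K)^[n] (P.side 0)) ((nextSide K)^[n'] (P.side 0)) → n = n' :=
    fun n hn n' hn' he => hinj n hn n' hn' he.1 he.2
  have hagree0 := walk_agree (P := P) hKQ (a := 0) n1 (fun i hi => by
    rw [zero_add]; exact hfree i hi)
  have hagreeT := walk_agree (P := P) hKQ (a := t0) (P.N - t0) (fun i hi => harc _ (by omega)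
    (by omega))
  -- the index of the side `t0` in the walk around `K`
  obtain ⟨j, hjN, hj1, hj2⟩ := hall (P.side t0) (isSide_sub hKQ ht3)
  have hj : Eqv ((nextSide K)^[j] (P.side 0)) (P.side t0) := ⟨hj1, hj2⟩
  have hji : ∀ i, i ≤ P.N - t0 → Eqv ((nextSide K)^[j + i] (P.side 0)) (P.side (t0 + i)) := by
    intro i hi
    rw [add_comm j i, Function.iterate_add_apply, ← hagreeT i hi]
    exact hj.iter' i
  have hne : ∀ i, i < P.N - t0 → ¬ Eqv (P.side (t0 + i)) (P.side 0) := by
    intro i hi he
    have h5 := side_inj P he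
    rw [Nat.mod_eq_of_lt (by omega), Nat.mod_eq_of_lt (N_pos P)] at h5
    omega
  have hperE : Eqv ((nextSide K)^[N'] (P.side 0)) (P.side 0) := by
    rw [hper]; exact ⟨rfl, by simp⟩
  have hlt : ∀ i, i < P.N - t0 → j + i < N' := by
    intro i
    induction i with
    | zero => intro _; simpa using hjN
    | succ i ih =>
      intro hi
      have h5 := ih (by omega)
      rcases Nat.lt_or_ge (j + (i + 1)) N' with h6 | h6
      · exact h6
      · exfalso
        have h7 : j + (i + 1) = N' := by omega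
        have h8 := hji (i + 1) (by omega)
        rw [h7] at h8
        exact hne (i + 1) hi (h8.symm.trans hperE)
  have hjN' : j + (P.N - t0) = N' := by
    have h5 := hlt (P.N - t0 - 1) (by omega)
    have h6 : j + (P.N - t0) ≤ N' := by omega
    rcases eq_or_lt_of_le h6 with h7 | h7
    · exact h7
    · exfalso
      have h8 := hji (P.N - t0) le_rfl
      have h9 : Eqv (P.side (t0 + (P.N - t0))) (P.side 0) := by
        rw [show t0 + (P.N - t0) = 0 + P.N by omega]
        exact side_period P 0
      have h10 := hinj' _ h7 0 (by omega) (h8.trans h9)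
      omega
  have hjn : n1 < j := by
    by_contra hcon
    have h5 := hagree0 j (by omega)
    rw [zero_add] at h5
    rw [h5] at hj
    have h6 := side_inj P hj
    rw [Nat.mod_eq_of_lt (by omega), Nat.mod_eq_of_lt (by omega)] at h6
    omega
  refine ⟨⟨K, h.good h3, P.side 0, N', j, by omega, hjN, hs0, hper, hall, hinj⟩, t0, ht1, ht2,
    rfl, rfl, ?_, hjn, hiff, hjN'.symm, ?_⟩
  · intro i hi
    have := hagree0 i hi
    rwa [zero_add] at this
  · intro i hi
    exact hji i hi.le

end

end Pool.Agent.H78.Q1
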