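import Mathlib
import Pool.Agent.H78.Q1.Struct

set_option autoImplicit false
open Finset

/-! Module M5, C1': the components of a regular hull as types. -/

namespace Pool.Agent.H78.Q1

open Pool.Agent.H75.Perc (dir dir_cases)
open Pool.Agent.Q1.M4 (Cell Adj4 Conn4 Good IsSide nextSide tail head Eqv edge_cells dir_neg
  PType isSide_iter isSide_next next_inj head_eq_tail_next)

variable {P : PType}

/-- A regular hull: the complement is connected and contains a cell with a wired side. -/
structure Reg (P : PType) (n1 : ℕ) (A : Finset Cell) : Prop where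
  hull : IsHull P n1 A
  conn : Conn4 ((P.Q \ A : Finset Cell) : Set Cell)
  wired : ∃ t, P.m ≤ t ∧ t < P.N ∧ (P.side t).1 ∉ A

section
variable {n1 : ℕ} {A : Finset Cell}

lemma Reg.rootC_eq (h : Reg P n1 A) : rootC P n1 A = P.Q \ A := by
  ext c
  constructor
  · intro hc; exact comp_sub _ _ hc
  · intro hc
    exact mem_comp.2 ⟨hc, h.conn _ h.hull.root_mem _ hc⟩

/-- All cells with a side before the root are outside a regular hull. -/
lemma Reg.before (h3 : G3 P.Q) (h : Reg P n1 A) {n : ℕ} (hn : n ≤ n1) : (P.side n).1 ∉ A := by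
  obtain ⟨t, ht1, ht2, ht3⟩ := h.wired
  have h1 : (P.side t).1 ∈ rootC P n1 A := by
    rw [h.rootC_eq]; exact mem_sdiff.2 ⟨(isSide_side P t).1, ht3⟩
  have h2 := h.hull.arc h3 ht1 h1 (n + P.N) (by omega) (by omega)
  rw [cell_period, h.rootC_eq] at h2
  exact (mem_sdiff.1 h2).2

/-- **Components of a regular hull.** -/
theorem Reg.exists_type (h3 : G3 P.Q) (h : Reg P n1 A) {c : Cell} (hc : c ∈ A) :
    ∃ (PC : PType) (p q : ℕ), n1 < p ∧ p < q ∧ q ≤ P.m ∧ PC.Q = comp A c ∧
      PC.s0 = P.side p ∧ PC.m = q - p ∧ (∀ i < q - p, PC.side i = P.side (p + i)) ∧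
      (∀ n < P.m, ((P.side n).1 ∈ comp A c ↔ p ≤ n ∧ n < q)) := by
  classical
  set C := comp A c with hC
  have hCA : C ⊆ A := comp_sub _ _
  have hCQ : C ⊆ P.Q := hCA.trans h.hull.sat.sub
  have hCconn : Conn4 (C : Set Cell) := comp_conn hc
  have hdisj : Disjoint C (P.Q \ A) := by
    rw [disjoint_left]
    intro x hx hx'
    exact (mem_sdiff.1 hx').2 (hCA hx)
  obtain ⟨r, hr1, hr2, hr3⟩ := h.hull.att c hc
  have hrC : (P.side r).1 ∈ C := mem_comp.2 ⟨hr3.mem hc, hr3⟩
  -- the first index
  have hex : ∃ n, (P.side n).1 ∈ C := ⟨r, hrC⟩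
  set p := Nat.find hex with hp
  have hpC : (P.side p).1 ∈ C := Nat.find_spec hex
  have hpr : p ≤ r := Nat.find_min' hex hrC
  have hn1p : n1 < p := by
    by_contra hcon
    exact h.before h3 (n := p) (by omega) (hCA hpC)
  -- the first index after `p` not in `C`
  have hex2 : ∃ n, p < n ∧ ((P.side n).1 ∉ C ∨ n = P.m) := ⟨P.m, by omega, Or.inr rfl⟩
  set q := Nat.find hex2 with hq
  obtain ⟨hpq, hqs⟩ := Nat.find_spec hex2
  have hqm : q ≤ P.m := Nat.find_min' hex2 ⟨by omega, Or.inr rfl⟩
  have hin : ∀ n, p ≤ n → n < q → (P.side n).1 ∈ C := by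
    intro n hn1 hn2
    rcases eq_or_lt_of_le hn1 with h1 | h1
    · rw [← h1]; exact hpC
    · by_contra hcon
      exact Nat.find_min hex2 hn2 ⟨h1, Or.inl hcon⟩
  -- no index in `(q, m)` belongs to `C`
  have hout : ∀ n, q ≤ n → n < P.m → (P.side n).1 ∉ C := by
    intro n hn1 hn2 hnC
    have hqm' : q < P.m := lt_of_le_of_lt hn1 hn2
    have hqC : (P.side q).1 ∉ C := by
      rcases hqs with h1 | h1
      · exact h1
      · omega
    have hqA : (P.side q).1 ∉ A := by
      intro hqA
      apply hqC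
      obtain ⟨q', hq'⟩ : ∃ q', q = q' + 1 := ⟨q - 1, by omega⟩
      have h1 := hin q' (by omega) (by omega)
      rw [hq'] at hqA ⊢
      have h4 := consec P.good h3 h.hull.sat (isSide_side P q') (hCA h1)
        (by rw [← side_succ]; exact hqA)
      rw [← side_succ] at h4
      exact (comp_rch h1 h4).1
    have hqn : q < n := lt_of_le_of_ne hn1 (fun e => hqC (e ▸ hnC))
    refine interlaceP P (i0 := n1) (r := p) (i1 := q) (u := n) hn1p hpq hqn
      (by have := P.hmN; omega) hCconn h.conn hdisj hCQ sdiff_subset h.hull.root_mem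
      (mem_sdiff.2 ⟨(isSide_side P q).1, hqA⟩) hpC hnC
  -- the component is good
  have hgood : Good C := by
    refine comp_good P.good h3 h.hull.sat hc (compl_conn P.good hCQ (fun d hd hdC => ?_))
    by_cases hdA : d ∈ A
    · obtain ⟨r', -, -, hr'⟩ := h.hull.att d hdA
      have hs := (isSide_side P r').2
      refine ⟨_, hs, ?_⟩
      have h1 := comp_rch (self_mem_comp hdA) hr'
      have h2 : ∀ z ∈ comp A d, z ∉ C := by
        intro z hz hz'
        apply hdC
        have e1 := comp_eq hdA hz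
        have e2 := comp_eq hc hz'
        rw [← e2, e1]
        exact self_mem_comp hdA
      have h4 : Rch ((C : Set Cell)ᶜ) d (P.side r').1 :=
        h1.2.mono (fun z hz hz' => h2 z hz hz')
      exact h4.trans (Rch.single ⟨_, rfl⟩ (fun hx => hs (hCQ hx)))
    · have hdS : d ∈ P.Q \ A := mem_sdiff.2 ⟨hd, hdA⟩
      have hs := (isSide_side P n1).2
      refine ⟨_, hs, ?_⟩
      have h1 : Rch ((P.Q \ A : Finset Cell) : Set Cell) d (P.side n1).1 :=
        h.conn _ hdS _ h.hull.root_mem
      have h4 : Rch ((C : Set Cell)ᶜ) d (P.side n1).1 :=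
        h1.mono (fun z hz hz' => (disjoint_left.1 hdisj) hz' hz)
      exact h4.trans (Rch.single ⟨_, rfl⟩ (fun hx => hs (hCQ hx)))
  -- the walk around `C`
  have hs0 : IsSide C (P.side p) := isSide_sub hCQ hpC
  obtain ⟨N', hN', hper, hall, hinj⟩ := Pool.Agent.Q1.M4.walk hgood hs0
  have hagree := walk_agree (P := P) hCQ (a := p) (q - p - 1) (fun i hi => hin _ (by omega)
    (by omega))
  have hagree' : ∀ i < q - p, (nextSide C)^[i] (P.side p) = P.side (p + i) :=
    fun i hi => hagree i (by omega)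
  -- there is a side of `C` which is not one of these
  have hNgt : q - p < N' := by
    by_contra hcon
    have hcon' : N' ≤ q - p := by omega
    -- an inner side of `C`
    have hne : (P.side n1).1 ∉ comp A c := by
      intro hh
      exact h.hull.root (hCA hh)
    obtain ⟨x, y, hx, ⟨k, hk⟩, hyQ, hyA⟩ := exit_comp P.good.conn h.hull.sat.sub hc
      (isSide_side P n1).1 hne
    have hside : IsSide C (x, k + 1) := by
      refine ⟨hx, ?_⟩
      simp only [add_sub_cancel_right]
      rw [← hk]
      exact fun hyC => hyA (hCA hyC)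
    obtain ⟨n, hn, hn1, hn2⟩ := hall _ hside
    have h5 := hagree' n (by omega)
    rw [h5] at hn1 hn2
    have h6 := (isSide_side P (p + n)).2
    apply h6
    have h7 : dir ((P.side (p + n)).2 - 1) = dir k := Pool.Agent.Q1.M4.dir_congr (by
      simp only at hn2; omega)
    rw [h7, hn1, ← hk]
    exact hyQ
  refine ⟨⟨C, hgood, P.side p, N', q - p, by omega, hNgt, hs0, hper, hall, hinj⟩, p, q, hn1p,
    hpq, hqm, rfl, rfl, rfl, hagree', fun n hn => ⟨fun hnC => ?_, fun hn' => hin n hn'.1 hn'.2⟩⟩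
  refine ⟨Nat.find_min' hex hnC, ?_⟩
  by_contra hcon
  exact hout n (by omega) hn hnC

/-- The vertices of the free arc of the component. -/
lemma vert_eq {PC : PType} {p q : ℕ} (hpq : p < q)
    (h : ∀ i < q - p, PC.side i = P.side (p + i)) : ∀ i ≤ q - p, PC.vert i = P.vert (p + i) := by
  intro i hi
  rcases eq_or_lt_of_le hi with h1 | h1
  · obtain ⟨j, hj⟩ : ∃ j, i = j + 1 := ⟨i - 1, by omega⟩
    subst hj
    unfold PType.vert
    rw [side_succ, head_eq_tail_next, h j (by omega), ← add_assoc, side_succ, head_eq_tail_next]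
  · unfold PType.vert
    rw [h i h1]

end

end Pool.Agent.H78.Q1
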