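import Mathlib
import Pool.Agent.Q1.M5.Defs
import Pool.Agent.H78.Q1.Comp

set_option autoImplicit false
open Finset

/-! Module M5, C1: lattice vertices and labels in cells, separation of the components of saturated
sets, wired vertices in the root component. -/

namespace Pool.Agent.H78.Q1

open Pool.Agent.H75.Perc Pool.Agent.H75.Four
open Pool.Agent.H49.Q1 (gs gcell mem_gs CJ onCell)
open Pool.Agent.Q1.M4 (Cell Adj4 Conn4 Good IsSide nextSide tail head Eqv edge_cells dir_neg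
  PType isSide_iter isSide_next next_inj head_eq_tail_next inRect inV lpt)
open Pool.Agent.Q1.M5 (sV sL WL EL TV CT hh lv FlatV)

variable {X Y : ℤ → ℤ}

/-! ### Cells containing a vertex -/

lemma line_cell {X : ℤ → ℤ} (hX : StrictMono X) {i j v : ℤ} (h1 : X i ≤ v) (h2 : v ≤ X (i + 1))
    (h3 : X j ≤ v) (h4 : v ≤ X (j + 1)) : j = i ∨ (j = i + 1 ∧ v = X (i + 1)) ∨
      (j = i - 1 ∧ v = X i) := by
  have a : X j ≤ X (i + 1) := h3.trans h2
  have b : X i ≤ X (j + 1) := h1.trans h4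
  rw [hX.le_iff_le] at a b
  rcases lt_trichotomy j i with h | h | h
  · have : j = i - 1 := by omega
    subst this
    rw [sub_add_cancel] at h4
    exact Or.inr (Or.inr ⟨rfl, le_antisymm h4 h1⟩)
  · exact Or.inl h
  · have : j = i + 1 := by omega
    subst this
    exact Or.inr (Or.inl ⟨rfl, le_antisymm h2 h3⟩)

/-- Two cells containing the same vertex are equal, adjacent or diagonal. -/
lemma rect_near (hX : StrictMono X) (hY : StrictMono Y) {c d : Cell} {v : ℤ × ℤ}
    (hc : inRect X Y c v) (hd : inRect X Y d v) :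
    (d.1 = c.1 ∨ d.1 = c.1 + 1 ∨ d.1 = c.1 - 1) ∧ (d.2 = c.2 ∨ d.2 = c.2 + 1 ∨ d.2 = c.2 - 1) := by
  have h1 := line_cell hX hc.1.1 hc.1.2 hd.1.1 hd.1.2
  have h2 := line_cell hY hc.2.1 hc.2.2 hd.2.1 hd.2.2
  omega

/-- Two cells of a saturated set containing the same vertex belong to the same component. -/
lemma rch_of_vertex {Q S : Finset Cell} (hQ : Good Q) (h3 : G3 Q) (hS : Sat Q S)
    (hX : StrictMono X) (hY : StrictMono Y) {c d : Cell} (hc : c ∈ S) (hd : d ∈ S) {v : ℤ × ℤ}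
    (hcv : inRect X Y c v) (hdv : inRect X Y d v) : Rch (S : Set Cell) c d := by
  have key : ∀ {c d : Cell}, c ∈ S → d ∈ S → d.2 = c.2 + 1 → d.1 = c.1 + 1 →
      Rch (S : Set Cell) c d := by
    rintro ⟨i, j⟩ ⟨i', j'⟩ hc hd h1 h2
    simp only at h1 h2
    subst h1 h2
    rcases np1 hQ h3 hS hc (by simpa using hd) with h | h
    · refine (Rch.single ⟨0, by unfold dir; simp⟩ h).trans
        (Rch.single ⟨1, by unfold dir; simp⟩ hd)
    · refine (Rch.single ⟨1, by unfold dir; simp⟩ h).trans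
        (Rch.single ⟨0, by unfold dir; simp⟩ hd)
  have key2 : ∀ {c d : Cell}, c ∈ S → d ∈ S → d.2 = c.2 + 1 → d.1 = c.1 - 1 →
      Rch (S : Set Cell) c d := by
    rintro ⟨i, j⟩ ⟨i', j'⟩ hc hd h1 h2
    simp only at h1 h2
    subst h1 h2
    rcases np2 hQ h3 hS (c := (i - 1, j)) (by simpa using hc) (by simpa using hd) with h | h
    · refine (Rch.single ⟨2, by unfold dir; simp [sub_eq_add_neg]⟩ h).trans
        (Rch.single ⟨1, by unfold dir; simp⟩ hd)
    · simp only [Prod.mk_add_mk, sub_add_cancel] at h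
      refine (Rch.single ⟨1, by unfold dir; simp⟩ h).trans
        (Rch.single ⟨2, by unfold dir; simp [sub_eq_add_neg]⟩ hd)
  have adj : ∀ {c d : Cell} (k : ℤ), d ∈ S → d = c + dir k → Rch (S : Set Cell) c d :=
    fun k hd h => Rch.single ⟨k, h⟩ hd
  obtain ⟨h1, h2⟩ := rect_near hX hY hcv hdv
  rcases h1 with h1 | h1 | h1 <;> rcases h2 with h2 | h2 | h2
  · rw [show d = c from Prod.ext h1 h2]; exact Rch.refl _ _
  · exact adj 1 hd (Prod.ext (by unfold dir; simp [h1]) (by unfold dir; simp [h2]))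
  · exact adj 3 hd (Prod.ext (by unfold dir; simp [h1]) (by unfold dir; simp [h2]; ring))
  · exact adj 0 hd (Prod.ext (by unfold dir; simp [h1]) (by unfold dir; simp [h2]))
  · exact key hc hd h2 h1
  · exact (key2 hd hc (by omega) (by omega)).symm hd
  · exact adj 2 hd (Prod.ext (by unfold dir; simp [h1]; ring) (by unfold dir; simp [h2]))
  · exact key2 hc hd h2 h1
  · exact (key hd hc (by omega) (by omega)).symm hd

/-! ### Labels -/

lemma mem_gcell_iff {c : Cell} {e : ℤ × ℤ} : e ∈ gcell X Y c ↔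
    (e.1 + e.2) % 2 = 1 ∧ inRect X Y c (eu e) ∧ inRect X Y c (ev e) := by
  unfold gcell inRect eu ev
  rw [mem_Bx]
  simp only
  constructor
  · rintro ⟨h1, h2, h3⟩
    refine ⟨h3, ⟨⟨by omega, by omega⟩, by omega, by omega⟩, ⟨by omega, by omega⟩, by omega, by omega⟩
  · rintro ⟨h3, ⟨⟨h4, h5⟩, h6, h7⟩, ⟨h8, h9⟩, h10, h11⟩
    exact ⟨⟨by omega, by omega⟩, ⟨by omega, by omega⟩, h3⟩

/-- both ends of the label of a step lie in the cell of the label -/
lemma step_rect {c : Cell} {a b : ℤ × ℤ} (hab : IsUnit4 (b - a)) (h : a + b ∈ gcell X Y c) :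
    inRect X Y c a ∧ inRect X Y c b := by
  have h1 := mem_gcell_iff.1 h
  rcases Pool.Agent.H65.Dom.ends_of (Pool.Agent.H65.Dom.odd_of_unit hab) hab rfl with
    ⟨h2, h3⟩ | ⟨h2, h3⟩
  · exact ⟨by rw [h2]; exact h1.2.1, by rw [h3]; exact h1.2.2⟩
  · exact ⟨by rw [h2]; exact h1.2.2, by rw [h3]; exact h1.2.1⟩

/-- The label of a step from a vertex of a component of the saturated set `S` inside the region of
`S` is a label of the component. -/
lemma step_comp {Q S : Finset Cell} (hQ : Good Q) (h3 : G3 Q) (hS : Sat Q S)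
    (hX : StrictMono X) (hY : StrictMono Y) {c0 c : Cell} (hc : c ∈ comp S c0) {a b : ℤ × ℤ}
    (ha : inRect X Y c a) (hab : IsUnit4 (b - a)) (h : a + b ∈ gs X Y S) :
    a + b ∈ gs X Y (comp S c0) ∧ ∃ d ∈ comp S c0, inRect X Y d b := by
  obtain ⟨d, hd, hd'⟩ := mem_gs.1 h
  obtain ⟨h1, h2⟩ := step_rect hab hd'
  have h4 := rch_of_vertex hQ h3 hS hX hY (comp_sub _ _ hc) hd ha h1
  have h5 := (comp_rch hc h4).1
  exact ⟨mem_gs.2 ⟨d, h5, hd'⟩, d, h5, h2⟩

end Pool.Agent.H78.Q1
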