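import Mathlib
import Pool.Agent.H78.Q1.LatCell

set_option autoImplicit false
open Finset

/-! Module M5, C1: wired vertices in the closed region of the root component lie on a wired side of
the root component. -/

namespace Pool.Agent.H78.Q1

open Pool.Agent.H75.Perc Pool.Agent.H75.Four
open Pool.Agent.H49.Q1 (gs gcell mem_gs CJ onCell)
open Pool.Agent.Q1.M4 (Cell Adj4 Conn4 Good IsSide nextSide tail head Eqv edge_cells dir_neg
  PType isSide_iter isSide_next next_inj head_eq_tail_next inRect inV lpt)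
open Pool.Agent.Q1.M5 (sV sL WL EL TV CT hh lv FlatV)

variable {X Y : ℤ → ℤ} {P : PType}

lemma sV_rect {s : Cell × ℤ} {v : ℤ × ℤ} (h : sV X Y s v) : inRect X Y s.1 v := h.1

lemma sV_eqv {s t : Cell × ℤ} (h : Eqv s t) {v : ℤ × ℤ} (hv : sV X Y s v) : sV X Y t v := by
  obtain ⟨h1, h2⟩ := h
  have h3 : s.2 % 4 = t.2 % 4 := by omega
  unfold sV onCell at hv ⊢
  rw [h1, h3] at hv
  exact hv

/-- The four cells around the head of a side. -/
lemma cells_head (hX : StrictMono X) (hY : StrictMono Y) {s : Cell × ℤ} {c : Cell}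
    (h : inRect X Y c (lpt X Y (head s))) :
    c = s.1 ∨ c = s.1 + dir s.2 ∨ c = s.1 + dir s.2 + dir (s.2 - 1) ∨ c = s.1 + dir (s.2 - 1) := by
  obtain ⟨⟨i, j⟩, k⟩ := s
  obtain ⟨a, b⟩ := c
  obtain ⟨⟨h1, h2⟩, h3, h4⟩ := h
  unfold lpt at h1 h2 h3 h4
  simp only at h1 h2 h3 h4
  rw [hX.le_iff_le] at h1 h2
  rw [hY.le_iff_le] at h3 h4
  unfold head tail at h1 h2 h3 h4
  simp only at h1 h2 h3 h4
  rcases dir_cases k with ⟨e0, e⟩ | ⟨e0, e⟩ | ⟨e0, e⟩ | ⟨e0, e⟩ <;>
  rcases dir_cases (k - 1) with ⟨f0, f⟩ | ⟨f0, f⟩ | ⟨f0, f⟩ | ⟨f0, f⟩ <;>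
  first
  | (exfalso; omega)
  | (rw [e, f]
     rw [e] at h1 h2 h3 h4
     simp [e0] at h1 h2 h3 h4
     simp only [Prod.mk_add_mk, Prod.mk.injEq]
     omega)

/-- The four cells around the tail of a side. -/
lemma cells_tail (hX : StrictMono X) (hY : StrictMono Y) {s : Cell × ℤ} {c : Cell}
    (h : inRect X Y c (lpt X Y (tail s))) :
    c = s.1 ∨ c = s.1 - dir s.2 ∨ c = s.1 - dir s.2 + dir (s.2 - 1) ∨ c = s.1 + dir (s.2 - 1) := by
  obtain ⟨⟨i, j⟩, k⟩ := s
  obtain ⟨a, b⟩ := c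
  obtain ⟨⟨h1, h2⟩, h3, h4⟩ := h
  unfold lpt at h1 h2 h3 h4
  simp only at h1 h2 h3 h4
  rw [hX.le_iff_le] at h1 h2
  rw [hY.le_iff_le] at h3 h4
  unfold tail at h1 h2 h3 h4
  simp only at h1 h2 h3 h4
  rcases dir_cases k with ⟨e0, e⟩ | ⟨e0, e⟩ | ⟨e0, e⟩ | ⟨e0, e⟩ <;>
  rcases dir_cases (k - 1) with ⟨f0, f⟩ | ⟨f0, f⟩ | ⟨f0, f⟩ | ⟨f0, f⟩ <;>
  first
  | (exfalso; omega)
  | (rw [e, f]
     simp [e0] at h1 h2 h3 h4
     simp only [Prod.mk_add_mk, Prod.mk_sub_mk, Prod.mk.injEq]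
     omega)

/-- A vertex of a side contained in another cell of `Q` is an end of the side. -/
lemma end_of_side (hX : StrictMono X) (hY : StrictMono Y) {Q : Finset Cell} {s : Cell × ℤ}
    (hs : IsSide Q s) {v : ℤ × ℤ} (hv : sV X Y s v) {c : Cell} (hc : c ∈ Q)
    (hcv : inRect X Y c v) (hne : c ≠ s.1) : v = lpt X Y (head s) ∨ v = lpt X Y (tail s) := by
  obtain ⟨⟨i, j⟩, k⟩ := s
  obtain ⟨a, b⟩ := c
  obtain ⟨hv1, hv2, hv3, hv4, hv5⟩ := hv
  have hr : inRect X Y (i, j) v := hv1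
  have h1 := line_cell hX hr.1.1 hr.1.2 hcv.1.1 hcv.1.2
  have h2 := line_cell hY hr.2.1 hr.2.2 hcv.2.1 hcv.2.2
  have hout := hs.2
  simp only at hv2 hv3 hv4 hv5 h1 h2 hout
  have hx1 : X i < X (i + 1) := hX (by omega)
  have hy1 : Y j < Y (j + 1) := hY (by omega)
  have hne' : ¬ (a = i ∧ b = j) := fun h => hne (Prod.ext h.1 h.2)
  unfold lpt head tail
  simp only
  rcases dir_cases k with ⟨e0, e⟩ | ⟨e0, e⟩ | ⟨e0, e⟩ | ⟨e0, e⟩ <;>
  rcases dir_cases (k - 1) with ⟨f0, f⟩ | ⟨f0, f⟩ | ⟨f0, f⟩ | ⟨f0, f⟩ <;>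
  first
  | (exfalso; omega)
  | (rw [f] at hout
     rw [e]
     simp [e0] at hv2 hv3 hv4 hv5 hout ⊢)
  · have hb : ¬ (a = i ∧ b = j - 1) := by
      rintro ⟨rfl, rfl⟩; exact hout (by simpa [sub_eq_add_neg] using hc)
    rcases h1 with h1 | ⟨h1, h1'⟩ | ⟨h1, h1'⟩
    · exfalso
      rcases h2 with h2 | ⟨h2, h2'⟩ | ⟨h2, h2'⟩
      · exact hne' ⟨h1, h2⟩
      · omega
      · exact hb ⟨h1, h2⟩
    · left; exact Prod.ext h1' hv2
    · right; exact Prod.ext h1' hv2
  · have hb : ¬ (a = i + 1 ∧ b = j) := by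
      rintro ⟨rfl, rfl⟩; exact hout (by simpa using hc)
    rcases h2 with h2 | ⟨h2, h2'⟩ | ⟨h2, h2'⟩
    · exfalso
      rcases h1 with h1 | ⟨h1, h1'⟩ | ⟨h1, h1'⟩
      · exact hne' ⟨h1, h2⟩
      · exact hb ⟨h1, h2⟩
      · omega
    · left; exact Prod.ext hv3 h2'
    · right; exact Prod.ext hv3 h2'
  · have hb : ¬ (a = i ∧ b = j + 1) := by
      rintro ⟨rfl, rfl⟩; exact hout (by simpa using hc)
    rcases h1 with h1 | ⟨h1, h1'⟩ | ⟨h1, h1'⟩
    · exfalso
      rcases h2 with h2 | ⟨h2, h2'⟩ | ⟨h2, h2'⟩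
      · exact hne' ⟨h1, h2⟩
      · exact hb ⟨h1, h2⟩
      · omega
    · right; exact Prod.ext h1' hv4
    · left; exact Prod.ext (by simpa using h1') hv4
  · have hb : ¬ (a = i - 1 ∧ b = j) := by
      rintro ⟨rfl, rfl⟩; exact hout (by simpa [sub_eq_add_neg] using hc)
    rcases h2 with h2 | ⟨h2, h2'⟩ | ⟨h2, h2'⟩
    · exfalso
      rcases h1 with h1 | ⟨h1, h1'⟩ | ⟨h1, h1'⟩
      · exact hne' ⟨h1, h2⟩
      · omega
      · exact hb ⟨h1, h2⟩
    · right; exact Prod.ext hv5 h2'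
    · left; exact Prod.ext hv5 (by simpa using h2')

lemma sV_tail (hX : StrictMono X) (hY : StrictMono Y) (s : Cell × ℤ) :
    sV X Y s (lpt X Y (tail s)) := by
  obtain ⟨⟨i, j⟩, k⟩ := s
  have hx1 : X i < X (i + 1) := hX (by omega)
  have hy1 : Y j < Y (j + 1) := hY (by omega)
  unfold sV onCell lpt tail inB
  rcases mod4 k with h | h | h | h <;> simp [h] <;> omega

lemma sV_head (hX : StrictMono X) (hY : StrictMono Y) (s : Cell × ℤ) :
    sV X Y s (lpt X Y (head s)) := by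
  obtain ⟨⟨i, j⟩, k⟩ := s
  have hx1 : X i < X (i + 1) := hX (by omega)
  have hy1 : Y j < Y (j + 1) := hY (by omega)
  unfold sV onCell lpt head tail inB
  rcases dir_cases k with ⟨h, e⟩ | ⟨h, e⟩ | ⟨h, e⟩ | ⟨h, e⟩ <;> rw [e] <;> simp [h] <;> omega

/-- **Wired vertices of the root component.** -/
theorem IsHull.wired_vertex {n1 : ℕ} {A : Finset Cell} (h3 : G3 P.Q) (h : IsHull P n1 A)
    (hX : StrictMono X) (hY : StrictMono Y) {v : ℤ × ℤ} (hv : TV P X Y v) {c : Cell}
    (hc : c ∈ rootC P n1 A) (hcv : inRect X Y c v) :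
    ∃ u, P.m ≤ u ∧ u < P.N ∧ (P.side u).1 ∈ rootC P n1 A ∧ sV X Y (P.side u) v := by
  obtain ⟨u, hu1, hu2, hu⟩ := hv
  have hcS : c ∈ P.Q \ A := comp_sub _ _ hc
  have hcA : c ∉ A := (mem_sdiff.1 hcS).2
  by_cases hA : (P.side u).1 ∈ A
  · have hne : c ≠ (P.side u).1 := fun e => hcA (e ▸ hA)
    have hsd := isSide_side P u
    rcases end_of_side hX hY hsd hu (mem_sdiff.1 hcS).1 hcv hne with hh | hh
    · -- head
      have hnext : (P.side (u + 1)).1 ∈ rootC P n1 A := by
        rw [hh] at hcv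
        have h4 := cells_head hX hY hcv
        rw [side_succ]
        unfold nextSide
        by_cases ha : (P.side u).1 + dir (P.side u).2 + dir ((P.side u).2 - 1) ∈ P.Q
        · rw [if_pos ha]
          simp only
          rcases h4 with h4 | h4 | h4 | h4
          · exact absurd h4 hne
          · have hD : (P.side u).1 + dir (P.side u).2 + dir ((P.side u).2 - 1) ∉ A := by
              intro hD
              apply hcA
              rw [h4]
              exact reflex_mid P.good h3 h.sat hsd.2 hA hD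
            exact comp_adj hc ⟨(P.side u).2 - 1, by rw [h4]⟩ (mem_sdiff.2 ⟨ha, hD⟩)
          · rw [← h4]; exact hc
          · exact absurd (mem_sdiff.1 hcS).1 (h4 ▸ hsd.2)
        · rw [if_neg ha]
          rcases h4 with h4 | h4 | h4 | h4
          · exact absurd h4 hne
          · rw [← h4, if_pos (mem_sdiff.1 hcS).1]
            exact hc
          · exact absurd (mem_sdiff.1 hcS).1 (h4 ▸ ha)
          · exact absurd (mem_sdiff.1 hcS).1 (h4 ▸ hsd.2)
      rcases Nat.lt_or_ge (u + 1) P.N with h5 | h5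
      · refine ⟨u + 1, by omega, h5, hnext, ?_⟩
        rw [hh, ← head_eq_tail_next (Q := P.Q), ← side_succ]
        exact sV_tail hX hY _
      · exfalso
        have : u = P.N - 1 := by omega
        rw [this] at hA
        exact h.mark hA
    · -- tail
      obtain ⟨w, hw⟩ : ∃ w, u = w + 1 := ⟨u - 1, by have := P.hm0; omega⟩
      have hsw := isSide_side P w
      have htl : tail (P.side u) = head (P.side w) := by
        rw [hw, side_succ, head_eq_tail_next]
      have hprev : (P.side w).1 ∈ rootC P n1 A := by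
        rw [hh, htl] at hcv
        have h4 := cells_head hX hY hcv
        rw [hw, side_succ] at hA hne
        unfold nextSide at hA hne
        by_cases ha : (P.side w).1 + dir (P.side w).2 + dir ((P.side w).2 - 1) ∈ P.Q
        · rw [if_pos ha] at hA hne
          simp only at hA hne
          rcases h4 with h4 | h4 | h4 | h4
          · rw [← h4]; exact hc
          · have hD : (P.side w).1 ∉ A := by
              intro hD
              apply hcA
              rw [h4]
              exact reflex_mid P.good h3 h.sat hsw.2 hD hA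
            exact comp_adj hc (adj4_symm ⟨(P.side w).2, h4⟩) (mem_sdiff.2 ⟨hsw.1, hD⟩)
          · exact absurd h4 hne
          · exact absurd (mem_sdiff.1 hcS).1 (h4 ▸ hsw.2)
        · rw [if_neg ha] at hA hne
          rcases h4 with h4 | h4 | h4 | h4
          · rw [← h4]; exact hc
          · exfalso
            rw [← h4, if_pos (mem_sdiff.1 hcS).1] at hne
            exact hne rfl
          · exact absurd (mem_sdiff.1 hcS).1 (h4 ▸ ha)
          · exact absurd (mem_sdiff.1 hcS).1 (h4 ▸ hsw.2)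
      rcases Nat.lt_or_ge w P.m with h5 | h5
      · exfalso
        obtain ⟨r, hr1, hr2, hr3⟩ := h.att _ hA
        have hwm : w = P.m - 1 := by omega
        have hrw : r ≠ w := by
          intro e
          have h6 := hr3.mem hA
          rw [e] at h6
          exact (disjoint_left.1 h.disj_rootC) h6 hprev
        refine interlaceP P (i0 := n1) (r := r) (i1 := w) (u := u) hr1 (by omega) (by omega)
          (by omega) (comp_conn hA) (comp_conn h.root_mem) ?_ ((comp_sub _ _).trans h.sat.sub)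
          h.rootC_sub (self_mem_comp h.root_mem) hprev (mem_comp.2 ⟨hr3.mem hA, hr3⟩)
          (self_mem_comp hA)
        exact disjoint_of_subset_left (comp_sub _ _) h.disj_rootC
      · refine ⟨w, h5, by omega, hprev, ?_⟩
        rw [hh, htl]
        exact sV_head hX hY _
  · refine ⟨u, hu1, hu2, ?_, hu⟩
    have h1 : (P.side u).1 ∈ P.Q \ A := mem_sdiff.2 ⟨(isSide_side P u).1, hA⟩
    have h2 := rch_of_vertex P.good h3 h.sat.sdiff hX hY hcS h1 hcv (sV_rect hu)
    exact (comp_rch hc h2).1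

end Pool.Agent.H78.Q1
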