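import Mathlib
import Pool.Agent.H78.Q1.Wired

set_option autoImplicit false
open Finset

/-! Module M5, C1: the probability of avoiding a hull is the one-point function of the type of the
root component. -/

namespace Pool.Agent.H78.Q1

open Pool.Agent.H75.Perc Pool.Agent.H75.Four
open Pool.Agent.H49.Q1 (gs gcell mem_gs CJ onCell)
open Pool.Agent.Q1.M4 (Cell Adj4 Conn4 Good IsSide nextSide tail head Eqv edge_cells dir_neg
  PType isSide_iter isSide_next next_inj head_eq_tail_next inRect inV lpt)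
open Pool.Agent.Q1.M5 (sV sL WL EL TV CT hh lv FlatV)

variable {X Y : ℤ → ℤ} {P : PType}

/-- Labels of the hull: the random labels which are not labels of the complement. -/
noncomputable def Lh (P : PType) (X Y : ℤ → ℤ) (A : Finset Cell) : Finset (ℤ × ℤ) :=
  EL P X Y \ gs X Y (P.Q \ A)

lemma mem_Lh {A : Finset Cell} {e : ℤ × ℤ} :
    e ∈ Lh P X Y A ↔ e ∈ EL P X Y ∧ e ∉ gs X Y (P.Q \ A) := mem_sdiff

lemma Lh_sub (P : PType) (X Y : ℤ → ℤ) (A : Finset Cell) : Lh P X Y A ⊆ EL P X Y := sdiff_subset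

lemma Lh_mono {A A' : Finset Cell} (h : A ⊆ A') : Lh P X Y A ⊆ Lh P X Y A' :=
  sdiff_subset_sdiff subset_rfl (Pool.Agent.H49.Q1.gs_mono (sdiff_subset_sdiff subset_rfl h))

lemma EL_sub (P : PType) (X Y : ℤ → ℤ) : EL P X Y ⊆ gs X Y P.Q := sdiff_subset

lemma Lh_empty (P : PType) (X Y : ℤ → ℤ) : Lh P X Y ∅ = ∅ := by
  unfold Lh
  rw [sdiff_empty, sdiff_eq_empty_iff_subset]
  exact EL_sub P X Y

/-! ### Labels and vertices of sides -/

lemma mem_sL_iff {s : Cell × ℤ} {e : ℤ × ℤ} :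
    e ∈ sL X Y s ↔ (e.1 + e.2) % 2 = 1 ∧ sV X Y s (eu e) ∧ sV X Y s (ev e) := by
  unfold sL sV onCell
  rw [mem_filter, mem_gcell_iff]
  have hinB : ∀ v, inB (X s.1.1) (X (s.1.1 + 1)) (Y s.1.2) (Y (s.1.2 + 1)) v ↔
    inRect X Y s.1 v := fun v => Iff.rfl
  rw [hinB, hinB]
  constructor
  · rintro ⟨⟨h1, h2, h3⟩, h4, h5, h6, h7⟩
    unfold eu ev at *
    simp only at *
    refine ⟨h1, ⟨h2, ?_, ?_, ?_, ?_⟩, h3, ?_, ?_, ?_, ?_⟩ <;> intro h8 <;>
      [have := h4 h8; have := h5 h8; have := h6 h8; have := h7 h8;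
       have := h4 h8; have := h5 h8; have := h6 h8; have := h7 h8] <;> omega
  · rintro ⟨h1, ⟨h2, h4, h5, h6, h7⟩, h3, h4', h5', h6', h7'⟩
    refine ⟨⟨h1, h2, h3⟩, ?_, ?_, ?_, ?_⟩ <;> intro h8 <;>
      [(have a := h4 h8; have b := h4' h8); (have a := h5 h8; have b := h5' h8);
       (have a := h6 h8; have b := h6' h8); (have a := h7 h8; have b := h7' h8)] <;>
      unfold eu at a <;> unfold ev at b <;> simp only at a b <;> omega

lemma sL_sub_gcell (s : Cell × ℤ) : sL X Y s ⊆ gcell X Y s.1 := filter_subset _ _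

lemma mem_WL {e : ℤ × ℤ} : e ∈ WL P X Y ↔ ∃ n, P.m ≤ n ∧ n < P.N ∧ e ∈ sL X Y (P.side n) := by
  unfold Pool.Agent.Q1.M5.WL
  rw [mem_biUnion]
  constructor
  · rintro ⟨n, hn, he⟩
    rw [mem_Ico] at hn
    exact ⟨n, hn.1, hn.2, he⟩
  · rintro ⟨n, h1, h2, he⟩
    exact ⟨n, mem_Ico.2 ⟨h1, h2⟩, he⟩

lemma WL_sub (P : PType) (X Y : ℤ → ℤ) : WL P X Y ⊆ gs X Y P.Q := by
  intro e he
  obtain ⟨n, -, -, h⟩ := mem_WL.1 he
  exact mem_gs.2 ⟨_, (isSide_side P n).1, sL_sub_gcell _ h⟩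

lemma disj_EL_WL (P : PType) (X Y : ℤ → ℤ) : Disjoint (EL P X Y) (WL P X Y) := sdiff_disjoint

lemma EL_union_WL (P : PType) (X Y : ℤ → ℤ) : EL P X Y ∪ WL P X Y = gs X Y P.Q :=
  sdiff_union_of_subset (WL_sub P X Y)

/-- Both ends of a step with a wired label are wired vertices. -/
lemma TV_of_WL {a b : ℤ × ℤ} (hab : IsUnit4 (b - a)) (h : a + b ∈ WL P X Y) :
    TV P X Y a ∧ TV P X Y b := by
  obtain ⟨n, h1, h2, h3⟩ := mem_WL.1 h
  obtain ⟨-, h4, h5⟩ := mem_sL_iff.1 h3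
  rcases Pool.Agent.H65.Dom.ends_of (Pool.Agent.H65.Dom.odd_of_unit hab) hab rfl with
    ⟨h6, h7⟩ | ⟨h6, h7⟩
  · exact ⟨⟨n, h1, h2, by rw [h6]; exact h4⟩, ⟨n, h1, h2, by rw [h7]; exact h5⟩⟩
  · exact ⟨⟨n, h1, h2, by rw [h6]; exact h5⟩, ⟨n, h1, h2, by rw [h7]; exact h4⟩⟩

/-- Connection to the wired arc, stopped at the first wired vertex. -/
lemma CT_iff {v : ℤ × ℤ} {ω : Finset (ℤ × ℤ)} :
    CT P X Y v ω ↔ ∃ z, TV P X Y z ∧ Co ω v z := by
  constructor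
  · rintro ⟨t, ht, hc⟩
    have key : ∀ z, Co (ω ∪ WL P X Y) v z → Co ω v z ∨ ∃ z, TV P X Y z ∧ Co ω v z := by
      intro z hz
      induction hz with
      | refl => exact Or.inl (Co.refl _ _)
      | @tail a b _ hab ih =>
        rcases ih with ih | ih
        · rcases mem_union.1 hab.2 with h | h
          · exact Or.inl (Relation.ReflTransGen.tail ih ⟨hab.1, h⟩)
          · exact Or.inr ⟨a, (TV_of_WL hab.1 h).1, ih⟩
        · exact Or.inr ih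
    rcases key t hc with h | h
    · exact ⟨t, ht, h⟩
    · exact h
  · rintro ⟨z, hz, hc⟩
    exact ⟨z, hz, hc.mono subset_union_left⟩

section
variable {n1 : ℕ} {A : Finset Cell}

/-- **Avoiding the hull = connection inside the root component.** -/
theorem IsHull.avoid_iff (h3 : G3 P.Q) (h : IsHull P n1 A) (hX : StrictMono X)
    (hY : StrictMono Y) {v : ℤ × ℤ} (hv : inRect X Y (P.side n1).1 v) {ω : Finset (ℤ × ℤ)}
    (hω : ω ⊆ EL P X Y) :
    CT P X Y v (ω \ Lh P X Y A) ↔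
      ∃ z, TV P X Y z ∧ (∃ c ∈ rootC P n1 A, inRect X Y c z) ∧
        Co (ω ∩ gs X Y (rootC P n1 A)) v z := by
  rw [CT_iff]
  constructor
  · rintro ⟨t, ht, hc⟩
    have key : ∀ z, Co (ω \ Lh P X Y A) v z → (∃ c ∈ rootC P n1 A, inRect X Y c z) ∧
        Co (ω ∩ gs X Y (rootC P n1 A)) v z := by
      intro z hz
      induction hz with
      | refl => exact ⟨⟨_, self_mem_comp h.root_mem, hv⟩, Co.refl _ _⟩
      | @tail a b _ hab ih =>
        obtain ⟨⟨c, hc, hca⟩, ih2⟩ := ih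
        obtain ⟨h1, h2⟩ := mem_sdiff.1 hab.2
        have h4 : a + b ∈ gs X Y (P.Q \ A) := by
          by_contra hcon
          exact h2 (mem_Lh.2 ⟨hω h1, hcon⟩)
        obtain ⟨h5, h6⟩ := step_comp P.good h3 h.sat.sdiff hX hY hc hca hab.1 h4
        exact ⟨h6, Relation.ReflTransGen.tail ih2 ⟨hab.1, mem_inter.2 ⟨h1, h5⟩⟩⟩
    obtain ⟨h1, h2⟩ := key t hc
    exact ⟨t, ht, h1, h2⟩
  · rintro ⟨z, hz, -, hc⟩
    refine ⟨z, hz, hc.mono ?_⟩
    intro e he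
    obtain ⟨h1, h2⟩ := mem_inter.1 he
    refine mem_sdiff.2 ⟨h1, fun h4 => (mem_Lh.1 h4).2 ?_⟩
    exact Pool.Agent.H49.Q1.gs_mono (comp_sub _ _) h2

/-- If the root is connected to the wired arc off the hull then the root component has a wired
side. -/
theorem IsHull.wired_of_avoid (h3 : G3 P.Q) (h : IsHull P n1 A) (hX : StrictMono X)
    (hY : StrictMono Y) {v : ℤ × ℤ} (hv : inRect X Y (P.side n1).1 v) {ω : Finset (ℤ × ℤ)}
    (hω : ω ⊆ EL P X Y) (hc : CT P X Y v (ω \ Lh P X Y A)) :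
    ∃ t, P.m ≤ t ∧ t < P.N ∧ (P.side t).1 ∈ rootC P n1 A := by
  obtain ⟨z, hz, ⟨c, hc, hcz⟩, -⟩ := (h.avoid_iff h3 hX hY hv hω).1 hc
  obtain ⟨u, h1, h2, h4, -⟩ := h.wired_vertex h3 hX hY hz hc hcz
  exact ⟨u, h1, h2, h4⟩

/-- A wired label in the closed region of the root component is a label of a wired side of it. -/
lemma IsHull.wired_label (h3 : G3 P.Q) (h : IsHull P n1 A) (hX : StrictMono X)
    (hY : StrictMono Y) {e : ℤ × ℤ} (he : e ∈ WL P X Y) (he' : e ∈ gs X Y (rootC P n1 A)) :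
    ∃ u, P.m ≤ u ∧ u < P.N ∧ (P.side u).1 ∈ rootC P n1 A ∧ e ∈ sL X Y (P.side u) := by
  obtain ⟨u, h1, h2, h4⟩ := mem_WL.1 he
  obtain ⟨c, hc, hce⟩ := mem_gs.1 he'
  obtain ⟨hodd, hcu, hcv⟩ := mem_gcell_iff.1 hce
  obtain ⟨-, hu, hv⟩ := mem_sL_iff.1 h4
  have hcQ : c ∈ P.Q := h.rootC_sub hc
  by_cases hne : c = (P.side u).1
  · exact ⟨u, h1, h2, hne ▸ hc, h4⟩
  · exfalso
    -- both ends of the label are ends of the side, and belong to the cell `c`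
    have hsd := isSide_side P u
    have a1 := end_of_side hX hY hsd hu hcQ hcu hne
    have a2 := end_of_side hX hY hsd hv hcQ hcv hne
    have hneuv : eu e ≠ ev e := by
      intro hh
      have h5 := congrArg Prod.fst hh
      have h6 := congrArg Prod.snd hh
      unfold eu ev at h5 h6
      simp only at h5 h6
      omega
    have both : ∀ w, (w = lpt X Y (head (P.side u)) ∨ w = lpt X Y (tail (P.side u))) →
      inRect X Y c w → inRect X Y c w := fun _ _ h => h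
    have hH : inRect X Y c (lpt X Y (head (P.side u))) ∧ inRect X Y c (lpt X Y (tail (P.side u))) := by
      rcases a1 with a1 | a1 <;> rcases a2 with a2 | a2
      · exact absurd (a1.trans a2.symm) hneuv
      · exact ⟨a1 ▸ hcu, a2 ▸ hcv⟩
      · exact ⟨a2 ▸ hcv, a1 ▸ hcu⟩
      · exact absurd (a1.trans a2.symm) hneuv
    have b1 := cells_head hX hY hH.1
    have b2 := cells_tail hX hY hH.2
    have hcO : c ≠ (P.side u).1 + dir ((P.side u).2 - 1) := fun hh => hsd.2 (hh ▸ hcQ)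
    obtain ⟨⟨s, k⟩, hs⟩ : ∃ s, s = P.side u := ⟨_, rfl⟩
    rw [← hs] at b1 b2 hne hcO
    simp only at b1 b2 hne hcO
    obtain ⟨i, j⟩ := s
    obtain ⟨a, b⟩ := c
    rcases dir_cases k with ⟨e0, e⟩ | ⟨e0, e⟩ | ⟨e0, e⟩ | ⟨e0, e⟩ <;>
    rcases dir_cases (k - 1) with ⟨f0, f⟩ | ⟨f0, f⟩ | ⟨f0, f⟩ | ⟨f0, f⟩ <;>
    first
    | omega
    | (rw [e, f] at b1 b2
       rw [f] at hcO
       simp only [Prod.mk_add_mk, Prod.mk_sub_mk, Prod.mk.injEq, ne_eq] at b1 b2 hne hcO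
       omega)

/-- **The probability of avoiding a hull** whose root component has a wired side. -/
theorem IsHull.prob (h3 : G3 P.Q) (h : IsHull P n1 A) (hX : StrictMono X) (hY : StrictMono Y)
    {v : ℤ × ℤ} (hv : inRect X Y (P.side n1).1 v) {P' : PType} {t0 : ℕ} (hQ' : P'.Q = rootC P n1 A)
    (hm : P.m ≤ t0) (hN : t0 < P.N)
    (hiff : ∀ u, P.m ≤ u → u < P.N → ((P.side u).1 ∈ rootC P n1 A ↔ t0 ≤ u))
    (hN' : P'.N = P'.m + (P.N - t0))
    (hside : ∀ i < P.N - t0, Eqv (P'.side (P'.m + i)) (P.side (t0 + i))) :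
    Pr (EL P X Y) (fun ω => CT P X Y v (ω \ Lh P X Y A)) = hh P' X Y v := by
  -- wired labels and vertices of `P'`
  have hTV : ∀ z, TV P' X Y z ↔ ∃ u, t0 ≤ u ∧ u < P.N ∧ sV X Y (P.side u) z := by
    intro z
    constructor
    · rintro ⟨n, h1, h2, h4⟩
      obtain ⟨i, hi⟩ : ∃ i, n = P'.m + i := ⟨n - P'.m, by omega⟩
      subst hi
      exact ⟨t0 + i, by omega, by omega, sV_eqv (hside i (by omega)) h4⟩
    · rintro ⟨u, h1, h2, h4⟩
      obtain ⟨i, hi⟩ : ∃ i, u = t0 + i := ⟨u - t0, by omega⟩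
      subst hi
      exact ⟨P'.m + i, by omega, by omega, sV_eqv (hside i (by omega)).symm h4⟩
  have hWL : ∀ e, e ∈ WL P' X Y ↔ ∃ u, t0 ≤ u ∧ u < P.N ∧ e ∈ sL X Y (P.side u) := by
    intro e
    rw [mem_WL]
    constructor
    · rintro ⟨n, h1, h2, h4⟩
      obtain ⟨i, hi⟩ : ∃ i, n = P'.m + i := ⟨n - P'.m, by omega⟩
      subst hi
      rw [mem_sL_iff] at h4
      refine ⟨t0 + i, by omega, by omega, mem_sL_iff.2 ⟨h4.1, ?_, ?_⟩⟩
      · exact sV_eqv (hside i (by omega)) h4.2.1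
      · exact sV_eqv (hside i (by omega)) h4.2.2
    · rintro ⟨u, h1, h2, h4⟩
      obtain ⟨i, hi⟩ : ∃ i, u = t0 + i := ⟨u - t0, by omega⟩
      subst hi
      rw [mem_sL_iff] at h4
      refine ⟨P'.m + i, by omega, by omega, mem_sL_iff.2 ⟨h4.1, ?_, ?_⟩⟩
      · exact sV_eqv (hside i (by omega)).symm h4.2.1
      · exact sV_eqv (hside i (by omega)).symm h4.2.2
  have hEL : ∀ ω, ω ⊆ EL P X Y → ω ∩ gs X Y (rootC P n1 A) = ω ∩ EL P' X Y := by
    intro ω hω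
    ext e
    rw [mem_inter, mem_inter]
    refine and_congr_right fun he => ?_
    unfold EL
    rw [mem_sdiff, hQ']
    refine ⟨fun h1 => ⟨h1, fun h2 => ?_⟩, fun h1 => h1.1⟩
    obtain ⟨u, h4, h5, h6⟩ := (hWL e).1 h2
    exact (mem_sdiff.1 (hω he)).2 (mem_WL.2 ⟨u, by omega, h5, h6⟩)
  have hELsub : EL P' X Y ⊆ EL P X Y := by
    intro e he
    unfold EL at he ⊢
    rw [mem_sdiff, hQ'] at he
    refine mem_sdiff.2 ⟨Pool.Agent.H49.Q1.gs_mono h.rootC_sub he.1, fun h1 => he.2 ?_⟩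
    obtain ⟨u, h4, h5, h6, h7⟩ := h.wired_label h3 hX hY h1 he.1
    exact (hWL e).2 ⟨u, (hiff u h4 h5).1 h6, h5, h7⟩
  unfold Pool.Agent.Q1.M5.hh
  rw [← Pr_restrict hELsub]
  refine Pr_congr fun ω hω => ?_
  rw [h.avoid_iff h3 hX hY hv hω, hEL ω hω, CT_iff]
  constructor
  · rintro ⟨z, hz, ⟨c, hc, hcz⟩, hco⟩
    obtain ⟨u, h1, h2, h4, h5⟩ := h.wired_vertex h3 hX hY hz hc hcz
    exact ⟨z, (hTV z).2 ⟨u, (hiff u h1 h2).1 h4, h2, h5⟩, hco⟩
  · rintro ⟨z, hz, hco⟩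
    obtain ⟨u, h1, h2, h4⟩ := (hTV z).1 hz
    exact ⟨z, ⟨u, by omega, h2, h4⟩, ⟨_, (hiff u (by omega) h2).2 h1, sV_rect h4⟩, hco⟩

end

end Pool.Agent.H78.Q1
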