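import Mathlib
import Pool.Agent.H78.Q1.RootId
import Pool.Agent.H4.Q1.Wire

set_option autoImplicit false
open Finset

/-! Module M5, C1: lattice faces in cells, attachment of the labels of a hull to the right face of the
root edge. -/

namespace Pool.Agent.H78.Q1

open Pool.Agent.H75.Perc Pool.Agent.H75.Four Pool.Agent.H65.Dom
open Pool.Agent.H49.Q1 (gs gcell mem_gs CJ onCell)
open Pool.Agent.Q1.M4 (Cell Adj4 Conn4 Good IsSide nextSide tail head Eqv edge_cells dir_neg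
  PType isSide_iter isSide_next next_inj head_eq_tail_next inRect inV lpt)
open Pool.Agent.Q1.M5 (sV sL WL EL TV CT hh lv FlatV XW root outer)

variable {X Y : ℤ → ℤ} {P : PType}

/-- The lattice face `g` lies in the cell `c`. -/
def InF (X Y : ℤ → ℤ) (c : Cell) (g : ℤ × ℤ) : Prop :=
  (X c.1 < g.1 ∧ g.1 ≤ X (c.1 + 1)) ∧ (Y c.2 < g.2 ∧ g.2 ≤ Y (c.2 + 1))

/-- The cells of a label are the cells of its two faces. -/
lemma gcell_iff_faces (hX : StrictMono X) (hY : StrictMono Y) {g g' : ℤ × ℤ}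
    (hu : IsUnit4 (g' - g)) {d : Cell} :
    g + g' - (1, 1) ∈ gcell X Y d ↔ InF X Y d g ∨ InF X Y d g' := by
  have hx : X d.1 < X (d.1 + 1) := hX (by omega)
  have hy : Y d.2 < Y (d.2 + 1) := hY (by omega)
  obtain ⟨a, b⟩ := g
  obtain ⟨a', b'⟩ := g'
  unfold IsUnit4 at hu
  unfold gcell InF
  rw [mem_Bx]
  simp only [Prod.mk_sub_mk, Prod.mk_add_mk, Prod.mk.injEq] at *
  omega

lemma InF.unique (hX : StrictMono X) (hY : StrictMono Y) {g : ℤ × ℤ} {c d : Cell}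
    (hc : InF X Y c g) (hd : InF X Y d g) : c = d := by
  obtain ⟨⟨h1, h2⟩, h3, h4⟩ := hc
  obtain ⟨⟨g1, g2⟩, g3, g4⟩ := hd
  have a1 : c.1 < d.1 + 1 := hX.lt_iff_lt.1 (lt_of_lt_of_le h1 g2)
  have a2 : d.1 < c.1 + 1 := hX.lt_iff_lt.1 (lt_of_lt_of_le g1 h2)
  have a3 : c.2 < d.2 + 1 := hY.lt_iff_lt.1 (lt_of_lt_of_le h3 g4)
  have a4 : d.2 < c.2 + 1 := hY.lt_iff_lt.1 (lt_of_lt_of_le g3 h4)
  exact Prod.ext (by omega) (by omega)

lemma odd_face {g g' : ℤ × ℤ} (hu : IsUnit4 (g' - g)) :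
    ((g + g' - (1, 1)).1 + (g + g' - (1, 1)).2) % 2 = 1 := by
  obtain ⟨a, b⟩ := g
  obtain ⟨a', b'⟩ := g'
  unfold IsUnit4 at hu
  simp only [Prod.mk_sub_mk, Prod.mk_add_mk, Prod.mk.injEq] at *
  omega

/-- A label whose faces lie in cells of `Q` is not a label of the boundary. -/
lemma not_sL_of_faces (hX : StrictMono X) (hY : StrictMono Y) {Q : Finset Cell} {s : Cell × ℤ}
    (hs : IsSide Q s) {e : ℤ × ℤ} (he : e ∈ sL X Y s) :
    e ∈ gcell X Y (s.1 + dir (s.2 - 1)) := by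
  obtain ⟨⟨i, j⟩, k⟩ := s
  obtain ⟨h1, ⟨h2, h3, h4, h5, h6⟩, h7, g3, g4, g5, g6⟩ := mem_sL_iff.1 he
  have h2' : inRect X Y (i, j) (eu e) := h2
  have h7' : inRect X Y (i, j) (ev e) := h7
  rw [mem_gcell_iff]
  refine ⟨h1, ?_⟩
  have x1 : X (i - 1) < X i := hX (by omega)
  have x2 : X (i + 1) < X (i + 1 + 1) := hX (by omega)
  have y1 : Y (j - 1) < Y j := hY (by omega)
  have y2 : Y (j + 1) < Y (j + 1 + 1) := hY (by omega)
  obtain ⟨⟨a1, a2⟩, a3, a4⟩ := h2'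
  obtain ⟨⟨b1, b2⟩, b3, b4⟩ := h7'
  simp only at a1 a2 a3 a4 b1 b2 b3 b4 h3 h4 h5 h6 g3 g4 g5 g6 ⊢
  unfold inRect
  rcases dir_cases (k - 1) with ⟨f0, f⟩ | ⟨f0, f⟩ | ⟨f0, f⟩ | ⟨f0, f⟩ <;> rw [f] <;>
  simp only [Prod.mk_add_mk, add_zero, Int.reduceNeg]
  · have e1 := h4 (by omega)
    have e2 := g4 (by omega)
    omega
  · have e1 := h5 (by omega)
    have e2 := g5 (by omega)
    omega
  · have e1 := h6 (by omega)
    have e2 := g6 (by omega)
    rw [show i + -1 = i - 1 by ring, sub_add_cancel]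
    omega
  · have e1 := h3 (by omega)
    have e2 := g3 (by omega)
    rw [show j + -1 = j - 1 by ring, sub_add_cancel]
    omega

/-- Labels between two cells of `A` (or inside one cell) belong to the labels of `A`. -/
lemma mem_Lh_of_faces (hX : StrictMono X) (hY : StrictMono Y) {A : Finset Cell} (hA : A ⊆ P.Q)
    {g g' : ℤ × ℤ} (hu : IsUnit4 (g' - g)) {c c' : Cell} (hc : c ∈ A) (hc' : c' ∈ A)
    (hg : InF X Y c g) (hg' : InF X Y c' g') : g + g' - (1, 1) ∈ Lh P X Y A := by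
  have key : ∀ d, g + g' - (1, 1) ∈ gcell X Y d → d ∈ A := by
    intro d hd
    rcases (gcell_iff_faces hX hY hu).1 hd with h | h
    · rw [← InF.unique hX hY hg h]; exact hc
    · rw [← InF.unique hX hY hg' h]; exact hc'
  rw [mem_Lh]
  constructor
  · unfold EL
    rw [mem_sdiff]
    refine ⟨mem_gs.2 ⟨c, hA hc, (gcell_iff_faces hX hY hu).2 (Or.inl hg)⟩, fun h => ?_⟩
    obtain ⟨n, -, -, hn⟩ := mem_WL.1 h
    exact (isSide_side P n).2 (hA (key _ (not_sL_of_faces hX hY (isSide_side P n) hn)))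
  · intro h
    obtain ⟨d, hd, hd'⟩ := mem_gs.1 h
    exact (mem_sdiff.1 hd).2 (key d hd')

end Pool.Agent.H78.Q1
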