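import Mathlib
import Pool.Agent.H65.Dom.Dual
import Pool.Agent.H78.Q1.Moeb

set_option autoImplicit false
open Finset

/-! Module M5, C1: in every environment the right-attached label sets avoided by crossings are stable
under unions (no extremal path, only duality). -/

namespace Pool.Agent.H78.Q1

open Pool.Agent.H75.Perc Pool.Agent.H75.TwoArm Pool.Agent.H75.Four Pool.Agent.H65.Dom

/-- The crossing event of the environment with wired labels `W` and root edge `e`. -/
def XC (W : Finset (ℤ × ℤ)) (e : ℤ × ℤ) (ω : Finset (ℤ × ℤ)) : Prop :=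
  Co ((ω ∪ W).erase e) (eu e) (ev e)

lemma XC_mono {W : Finset (ℤ × ℤ)} {e : ℤ × ℤ} {ω ω' : Finset (ℤ × ℤ)} (h : ω ⊆ ω')
    (hx : XC W e ω) : XC W e ω' :=
  Co.mono (erase_subset_erase _ (union_subset_union_left h)) hx

/-- The label set `A` is attached to the face `f` in the region `K`: both faces of every label of
`A` are joined to `f` by a dual path crossing no label of `K \ A`. -/
def Att (M : ℤ) (K A : Finset (ℤ × ℤ)) (f : ℤ × ℤ) : Prop :=
  ∀ g g' : ℤ × ℤ, IsUnit4 (g' - g) → g + g' - (1, 1) ∈ A →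
    Co (du (H75.TwoArm.BB M) (K \ A)) g f

lemma mem_du_iff {B ω : Finset (ℤ × ℤ)} {l : ℤ × ℤ} :
    l ∈ du B ω ↔ l - (1, 1) ∈ B ∧ l - (1, 1) ∉ ω := by
  unfold du
  rw [mem_map]
  constructor
  · rintro ⟨x, hx, rfl⟩
    have : sh1 x - (1, 1) = x := add_sub_cancel_right x (1, 1)
    rw [this]
    exact mem_sdiff.1 hx
  · rintro ⟨h1, h2⟩
    exact ⟨l - (1, 1), mem_sdiff.2 ⟨h1, h2⟩, sub_add_cancel l (1, 1)⟩

lemma du_anti {B ω ω' : Finset (ℤ × ℤ)} (h : ω ⊆ ω') : du B ω' ⊆ du B ω := by
  intro l hl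
  rw [mem_du_iff] at hl ⊢
  exact ⟨hl.1, fun h' => hl.2 (h h')⟩

lemma Att.union {M : ℤ} {K A A' : Finset (ℤ × ℤ)} {f : ℤ × ℤ} (h : Att M K A f)
    (h' : Att M K A' f) : Att M K (A ∪ A') f := by
  intro g g' hu hl
  rcases mem_union.1 hl with h1 | h1
  · exact Co.mono (du_anti (sdiff_subset_sdiff (Subset.refl _) subset_union_left)) (h g g' hu h1)
  · exact Co.mono (du_anti (sdiff_subset_sdiff (Subset.refl _) subset_union_right)) (h' g g' hu h1)

/-- **Lattice property**: if there is a crossing avoiding `A` and a crossing avoiding `A'` and both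
sets are attached to the same face of the root edge, then there is a crossing avoiding `A ∪ A'`. -/
theorem lat {M : ℤ} {E W A A' : Finset (ℤ × ℤ)} {e f : ℤ × ℤ} (he : (e.1 + e.2) % 2 = 1)
    (heM : e ∈ H75.TwoArm.BB (M - 1)) (hE : E ⊆ H75.TwoArm.BB (M - 1))
    (hW : W ⊆ H75.TwoArm.BB (M - 1)) (hf : f = fi (zu e) ∨ f = fi (zv e))
    (heE : e ∉ E) (hEW : Disjoint E W) (hAE : A ⊆ E) (hAE' : A' ⊆ E)
    (hA : Att M (insert e (E ∪ W)) A f) (hA' : Att M (insert e (E ∪ W)) A' f)
    {ω : Finset (ℤ × ℤ)} (hω : ω ⊆ E) (h1 : XC W e (ω \ A)) (h2 : XC W e (ω \ A')) :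
    XC W e (ω \ (A ∪ A')) := by
  classical
  by_contra hn
  have hsub : ∀ B : Finset (ℤ × ℤ), (ω \ B) ∪ W ⊆ H75.TwoArm.BB (M - 1) := fun B =>
    union_subset ((sdiff_subset.trans hω).trans hE) hW
  have hd := dual_of_sep he heM (hsub (A ∪ A')) hn
  -- the face opposite to `f`
  obtain ⟨f', hff'⟩ : ∃ f', (f = fi (zu e) ∧ f' = fi (zv e)) ∨ (f = fi (zv e) ∧ f' = fi (zu e)) := by
    rcases hf with h | h
    · exact ⟨_, Or.inl ⟨h, rfl⟩⟩
    · exact ⟨_, Or.inr ⟨h, rfl⟩⟩
  have hd' : Co (du (H75.TwoArm.BB M) (insert e ((ω \ (A ∪ A')) ∪ W))) f' f := by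
    rcases hff' with ⟨rfl, rfl⟩ | ⟨rfl, rfl⟩
    · exact hd.symm
    · exact hd
  -- no dual path from `f'` to `f`
  have hno : ∀ B : Finset (ℤ × ℤ), XC W e (ω \ B) →
      ¬ Co (du (H75.TwoArm.BB M) (insert e ((ω \ B) ∪ W))) f' f := by
    intro B hB hc
    have := (sep_iff_dual he heM (hsub B)).2 (by
      rcases hff' with ⟨rfl, rfl⟩ | ⟨rfl, rfl⟩
      · exact hc.symm
      · exact hc)
    exact this hB
  have key : ∀ g, Co (du (H75.TwoArm.BB M) (insert e ((ω \ (A ∪ A')) ∪ W))) f' g →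
      Co (du (H75.TwoArm.BB M) (insert e (ω ∪ W))) f' g := by
    intro g hg
    induction hg with
    | refl => exact Co.refl _ _
    | @tail b c hab hbc ih =>
      refine ih.tail ⟨hbc.1, ?_⟩
      have hl := hbc.2
      rw [mem_du_iff] at hl ⊢
      refine ⟨hl.1, fun hin => ?_⟩
      have hAA : b + c - (1, 1) ∈ A ∪ A' := by
        by_contra hcon
        apply hl.2
        rw [mem_insert, mem_union] at hin
        rw [mem_insert, mem_union]
        rcases hin with h | h | h
        · exact Or.inl h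
        · exact Or.inr (Or.inl (mem_sdiff.2 ⟨h, hcon⟩))
        · exact Or.inr (Or.inr h)
      have hne : b + c - (1, 1) ≠ e ∧ b + c - (1, 1) ∉ W := by
        constructor
        · intro h; exact hl.2 (by rw [h]; exact mem_insert_self _ _)
        · intro h; exact hl.2 (mem_insert_of_mem (mem_union_right _ h))
      -- the path reaches `A` or `A'` at the face `b`
      have go : ∀ B : Finset (ℤ × ℤ), B ⊆ E → Att M (insert e (E ∪ W)) B f → XC W e (ω \ B) →
          b + c - (1, 1) ∈ B → False := by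
        intro B hBE hB hX hl'
        apply hno B hX
        have p1 : Co (du (H75.TwoArm.BB M) (insert e ((ω \ B) ∪ W))) f' b :=
          Co.mono (du_anti (insert_subset_insert _ (union_subset_union_left sdiff_subset))) ih
        have p2 : Co (du (H75.TwoArm.BB M) (insert e ((ω \ B) ∪ W))) b f := by
          refine Co.mono ?_ (hB b c hbc.1 hl')
          intro l hl2
          rw [mem_du_iff] at hl2 ⊢
          refine ⟨hl2.1, fun hin2 => hl2.2 ?_⟩
          rw [mem_insert, mem_union, mem_sdiff] at hin2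
          rw [mem_sdiff, mem_insert, mem_union]
          rcases hin2 with h | ⟨h, h3⟩ | h
          · exact ⟨Or.inl h, fun hb => heE (by rw [← h]; exact hBE hb)⟩
          · exact ⟨Or.inr (Or.inl (hω h)), h3⟩
          · exact ⟨Or.inr (Or.inr h), fun hb => (disjoint_left.1 hEW) (hBE hb) h⟩
        exact p1.trans p2
      rcases mem_union.1 hAA with h | h
      · exact go A hAE hA h1 h
      · exact go A' hAE' hA' h2 h
  exact hno ∅ (by simpa using XC_mono sdiff_subset h1) (by simpa using key f hd')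

end Pool.Agent.H78.Q1
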