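import Mathlib
import Pool.Agent.H78.Q1.Face
import Pool.Agent.H78.Q1.Lat

set_option autoImplicit false
open Finset

/-! Module M5, C1: attachment of the labels of a hull to the right face of the root edge. -/

namespace Pool.Agent.H78.Q1

open Pool.Agent.H75.Perc Pool.Agent.H75.TwoArm Pool.Agent.H65.Dom
open Pool.Agent.H75.Four hiding rf
open Pool.Agent.H49.Q1 (gs gcell mem_gs CJ onCell)
open Pool.Agent.Q1.M4 (Cell Adj4 Conn4 Good IsSide nextSide tail head Eqv edge_cells dir_neg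
  PType isSide_iter isSide_next next_inj head_eq_tail_next inRect inV lpt)
open Pool.Agent.Q1.M5 (sV sL WL EL TV CT hh lv FlatV XW outer)
open Pool.Agent.H4.Q1 (Gap Boxed bp ln ot rf qf cor cor_after free_not_TV bp_V gs_box qf_ad Fc_dir
  qf_cases bw_cases)

variable {X Y : ℤ → ℤ} {P : PType}

/-- dual connection which crosses only labels of the hull `A` and labels outside the domain which
are closed -/
def DcA (P : PType) (X Y : ℤ → ℤ) (M M1 : ℤ) (e0 : ℤ × ℤ) (A : Finset Cell) (g g' : ℤ × ℤ) : Prop :=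
  Co (du (H75.TwoArm.BB M) (cor P X Y M1 e0 \ Lh P X Y A)) g g'

section
variable {M M1 : ℤ} {e0 : ℤ × ℤ} {A : Finset Cell}

lemma face_step (hX : StrictMono X) (hY : StrictMono Y) (hM : Boxed P X Y M)
    (hA : A ⊆ P.Q) {g g' : ℤ × ℤ} (hu : IsUnit4 (g' - g)) {c c' : Cell} (hc : c ∈ A) (hc' : c' ∈ A)
    (hg : InF X Y c g) (hg' : InF X Y c' g') : DcA P X Y M M1 e0 A g g' := by
  have h1 := mem_Lh_of_faces hX hY hA hu hc hc' hg hg'
  refine Relation.ReflTransGen.single ⟨hu, mem_du_iff.2 ⟨?_, ?_⟩⟩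
  · exact gs_box hM (EL_sub P X Y (Lh_sub P X Y A h1))
  · exact fun h2 => (mem_sdiff.1 h2).2 h1

lemma face_row (hX : StrictMono X) (hY : StrictMono Y) (hM : Boxed P X Y M)
    (hA : A ⊆ P.Q) {c : Cell} (hc : c ∈ A) {a b : ℤ} (n : ℕ) (h1 : InF X Y c (a, b))
    (h2 : InF X Y c (a + n, b)) : DcA P X Y M M1 e0 A (a, b) (a + n, b) := by
  induction n with
  | zero => rw [Nat.cast_zero, add_zero]; exact Co.refl _ _
  | succ n ih =>
    obtain ⟨⟨p1, p2⟩, p3, p4⟩ := h1
    obtain ⟨⟨q1, q2⟩, q3, q4⟩ := h2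
    simp only at p1 p2 p3 p4 q1 q2 q3 q4
    push_cast at q1 q2 ⊢
    have h3 : InF X Y c (a + n, b) := ⟨⟨by simp only; omega, by simp only; omega⟩, p3, p4⟩
    have h4 : InF X Y c (a + (n + 1), b) := ⟨⟨q1, q2⟩, q3, q4⟩
    refine (ih h3).trans (face_step hX hY hM hA ?_ hc hc h3 h4)
    left
    simp

lemma face_col (hX : StrictMono X) (hY : StrictMono Y) (hM : Boxed P X Y M)
    (hA : A ⊆ P.Q) {c : Cell} (hc : c ∈ A) {a b : ℤ} (n : ℕ) (h1 : InF X Y c (a, b))
    (h2 : InF X Y c (a, b + n)) : DcA P X Y M M1 e0 A (a, b) (a, b + n) := by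
  induction n with
  | zero => rw [Nat.cast_zero, add_zero]; exact Co.refl _ _
  | succ n ih =>
    obtain ⟨⟨p1, p2⟩, p3, p4⟩ := h1
    obtain ⟨⟨q1, q2⟩, q3, q4⟩ := h2
    simp only at p1 p2 p3 p4 q1 q2 q3 q4
    push_cast at q3 q4 ⊢
    have h3 : InF X Y c (a, b + n) := ⟨⟨p1, p2⟩, by simp only; omega, by simp only; omega⟩
    have h4 : InF X Y c (a, b + (n + 1)) := ⟨⟨q1, q2⟩, q3, q4⟩
    refine (ih h3).trans (face_step hX hY hM hA ?_ hc hc h3 h4)
    right; left
    simp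

/-- all faces of a cell of `A` are joined -/
lemma face_cell (hX : StrictMono X) (hY : StrictMono Y) (hM : Boxed P X Y M)
    (hA : A ⊆ P.Q) {c : Cell} (hc : c ∈ A) {g g' : ℤ × ℤ} (h1 : InF X Y c g)
    (h2 : InF X Y c g') : DcA P X Y M M1 e0 A g g' := by
  obtain ⟨a, b⟩ := g
  obtain ⟨a', b'⟩ := g'
  have h3 : InF X Y c (a', b) := ⟨h2.1, h1.2⟩
  have s1 : DcA P X Y M M1 e0 A (a, b) (a', b) := by
    rcases le_total a a' with h | h
    · have := face_row (M1 := M1) (e0 := e0) hX hY hM hA hc (a := a) (b := b) (a' - a).toNat h1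
        (by rw [Int.toNat_of_nonneg (by omega), add_sub_cancel]; exact h3)
      rwa [Int.toNat_of_nonneg (by omega), add_sub_cancel] at this
    · have := face_row (M1 := M1) (e0 := e0) hX hY hM hA hc (a := a') (b := b) (a - a').toNat h3
        (by rw [Int.toNat_of_nonneg (by omega), add_sub_cancel]; exact h1)
      rw [Int.toNat_of_nonneg (by omega), add_sub_cancel] at this
      exact this.symm
  have s2 : DcA P X Y M M1 e0 A (a', b) (a', b') := by
    rcases le_total b b' with h | h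
    · have := face_col (M1 := M1) (e0 := e0) hX hY hM hA hc (a := a') (b := b) (b' - b).toNat h3
        (by rw [Int.toNat_of_nonneg (by omega), add_sub_cancel]; exact h2)
      rwa [Int.toNat_of_nonneg (by omega), add_sub_cancel] at this
    · have := face_col (M1 := M1) (e0 := e0) hX hY hM hA hc (a := a') (b := b') (b - b').toNat h2
        (by rw [Int.toNat_of_nonneg (by omega), add_sub_cancel]; exact h3)
      rw [Int.toNat_of_nonneg (by omega), add_sub_cancel] at this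
      exact this.symm
  exact s1.trans s2

/-- a face of the cell `c` -/
lemma exists_face (hX : StrictMono X) (hY : StrictMono Y) (c : Cell) : ∃ g, InF X Y c g := by
  have hx : X c.1 < X (c.1 + 1) := hX (by omega)
  have hy : Y c.2 < Y (c.2 + 1) := hY (by omega)
  exact ⟨(X (c.1 + 1), Y (c.2 + 1)), ⟨hx, le_rfl⟩, hy, le_rfl⟩

/-- adjacent cells have adjacent faces -/
lemma exists_faces (hX : StrictMono X) (hY : StrictMono Y) (c : Cell) (k : ℤ) :
    ∃ g g', IsUnit4 (g' - g) ∧ InF X Y c g ∧ InF X Y (c + dir k) g' := by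
  obtain ⟨i, j⟩ := c
  have x0 : X (i - 1) < X i := hX (by omega)
  have x1 : X i < X (i + 1) := hX (by omega)
  have x2 : X (i + 1) < X (i + 1 + 1) := hX (by omega)
  have y0 : Y (j - 1) < Y j := hY (by omega)
  have y1 : Y j < Y (j + 1) := hY (by omega)
  have y2 : Y (j + 1) < Y (j + 1 + 1) := hY (by omega)
  rcases dir_cases k with ⟨f0, f⟩ | ⟨f0, f⟩ | ⟨f0, f⟩ | ⟨f0, f⟩ <;> rw [f] <;>
  simp only [Prod.mk_add_mk, add_zero, Int.reduceNeg]
  · refine ⟨(X (i + 1), Y (j + 1)), (X (i + 1) + 1, Y (j + 1)), Or.inl (by simp), ?_, ?_⟩ <;>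
    unfold InF <;> simp only <;> omega
  · refine ⟨(X (i + 1), Y (j + 1)), (X (i + 1), Y (j + 1) + 1), Or.inr (Or.inl (by simp)), ?_, ?_⟩ <;>
    unfold InF <;> simp only <;> omega
  · refine ⟨(X i + 1, Y (j + 1)), (X i, Y (j + 1)), Or.inr (Or.inr (Or.inl (by simp))), ?_, ?_⟩ <;>
    unfold InF <;> simp only <;> (try rw [show i + -1 = i - 1 by ring, sub_add_cancel]) <;> omega
  · refine ⟨(X (i + 1), Y j + 1), (X (i + 1), Y j), Or.inr (Or.inr (Or.inr (by simp))), ?_, ?_⟩ <;>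
    unfold InF <;> simp only <;> (try rw [show j + -1 = j - 1 by ring, sub_add_cancel]) <;> omega

/-- faces of cells joined inside `A` are joined -/
lemma face_rch (hX : StrictMono X) (hY : StrictMono Y) (hM : Boxed P X Y M)
    (hA : A ⊆ P.Q) {c d : Cell} (hc : c ∈ A) (h : Rch (A : Set Cell) c d) {g g' : ℤ × ℤ}
    (h1 : InF X Y c g) (h2 : InF X Y d g') : DcA P X Y M M1 e0 A g g' := by
  induction h generalizing g' with
  | refl => exact face_cell hX hY hM hA hc h1 h2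
  | @tail a b hca hab ih =>
    obtain ⟨⟨k, rfl⟩, hb⟩ := hab
    have ha : a ∈ A := by
      have := Rch.mem hca hc
      exact this
    have hb' : a + dir k ∈ A := hb
    obtain ⟨x, y, hxy, hx, hy⟩ := exists_faces hX hY a k
    exact ((ih hx).trans (face_step hX hY hM hA hxy ha hb' hx hy)).trans
      (face_cell hX hY hM hA hb' hy h2)

end

/-- the inner and the outer face of an edge of a side -/
lemma side_faces (hX : Gap X) (hY : Gap Y) (n : ℕ) {l : ℤ} (h0 : 0 ≤ l) (h1 : l < ln P X Y n) :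
    InF X Y (P.side n).1 (qf (bp P X Y n l) ((P.side n).2 + 1)) ∧
    InF X Y ((P.side n).1 + dir ((P.side n).2 - 1)) (rf P X Y n l) := by
  obtain ⟨⟨⟨i, j⟩, k⟩, hs⟩ : ∃ s, s = P.side n := ⟨_, rfl⟩
  unfold rf bp
  unfold ln at h1
  rw [← hs] at h1 ⊢
  simp only
  have x0 := hX (i - 1)
  have y0 := hY (j - 1)
  rw [sub_add_cancel] at x0 y0
  have x1 := hX i
  have y1 := hY j
  have x2 := hX (i + 1)
  have y2 := hY (j + 1)
  rcases bw_cases X Y ((i, j), k) l with ⟨a, -, e1, -, e3, e4⟩ | ⟨a, -, e1, -, e3, e4⟩ |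
    ⟨a, -, e1, -, e3, e4⟩ | ⟨a, -, e1, -, e3, e4⟩ <;>
  simp only at a e1 e3 e4 <;>
  rw [e1, e4] <;> rw [e3] at h1 <;>
  [ (obtain ⟨-, -, q1, q2⟩ | ⟨b, -⟩ | ⟨b, -⟩ | ⟨b, -⟩ := qf_cases (X i + l, Y j) k);
    (obtain ⟨b, -⟩ | ⟨-, -, q1, q2⟩ | ⟨b, -⟩ | ⟨b, -⟩ := qf_cases (X (i + 1), Y j + l) k);
    (obtain ⟨b, -⟩ | ⟨b, -⟩ | ⟨-, -, q1, q2⟩ | ⟨b, -⟩ := qf_cases (X (i + 1) - l, Y (j + 1)) k);
    (obtain ⟨b, -⟩ | ⟨b, -⟩ | ⟨b, -⟩ | ⟨-, -, q1, q2⟩ := qf_cases (X i, Y (j + 1) - l) k)] <;>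
  first
  | (exfalso; omega)
  | (rw [q1, q2]
     unfold InF
     simp only [Prod.mk_add_mk, add_zero, Int.reduceNeg]
     try rw [show i + -1 = i - 1 by ring]
     try rw [show j + -1 = j - 1 by ring]
     try simp only [sub_add_cancel]
     omega)

lemma Gap.mono' {X : ℤ → ℤ} (h : Gap X) : StrictMono X :=
  strictMono_int_of_lt_succ fun i => by have := h i; omega

section
variable {M M1 : ℤ} {n1 : ℕ} {A : Finset Cell}

/-- the label of an edge of a free side of a cell of `A` belongs to the labels of `A` -/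
lemma side_label (hX : Gap X) (hY : Gap Y) {r : ℕ} (hr0 : 0 < r) (hr : r < P.m)
    (hA : (P.side r).1 ∈ A) {l : ℤ} (h0 : 0 ≤ l) (h1 : l < ln P X Y r) :
    bp P X Y r l + (bp P X Y r l + dir (P.side r).2) ∈ Lh P X Y A := by
  have hXm := Gap.mono' hX
  have hYm := Gap.mono' hY
  obtain ⟨f1, f2⟩ := side_faces (P := P) hX hY r h0 h1
  have hq := Pool.Agent.H4.Q1.qf_step (bp P X Y r l) (P.side r).2
  have e1 : bp P X Y r l + (bp P X Y r l + dir (P.side r).2) =
      qf (bp P X Y r l) (P.side r).2 + qf (bp P X Y r l) ((P.side r).2 + 1) - (1, 1) := by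
    rw [hq.2]; abel
  have hcells : ∀ d, bp P X Y r l + (bp P X Y r l + dir (P.side r).2) ∈ gcell X Y d →
      d = (P.side r).1 + dir ((P.side r).2 - 1) ∨ d = (P.side r).1 := by
    intro d hd
    rw [e1] at hd
    rcases (gcell_iff_faces hXm hYm hq.1).1 hd with h | h
    · exact Or.inl (InF.unique hXm hYm h f2)
    · exact Or.inr (InF.unique hXm hYm h f1)
  rw [mem_Lh]
  constructor
  · unfold EL
    rw [mem_sdiff]
    constructor
    · refine mem_gs.2 ⟨_, (isSide_side P r).1, ?_⟩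
      rw [e1]
      exact (gcell_iff_faces hXm hYm hq.1).2 (Or.inr f1)
    · intro h
      have h2 := (TV_of_WL (a := bp P X Y r l) (b := bp P X Y r l + dir (P.side r).2)
        (by rw [add_sub_cancel_left]; exact isUnit4_dir _) h).1
      exact free_not_TV hX hY hr h0 h1 (Or.inl hr0) h2
  · intro h
    obtain ⟨d, hd, hd'⟩ := mem_gs.1 h
    obtain ⟨hd1, hd2⟩ := mem_sdiff.1 hd
    rcases hcells d hd' with h3 | h3
    · exact (isSide_side P r).2 (h3 ▸ hd1)
    · exact hd2 (h3 ▸ hA)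

/-- flat vertices have an outer neighbour outside the region -/
lemma flat_ot (hX : Gap X) (hY : Gap Y) (hf : FlatV P n1) : ¬ inV P.Q X Y (ot P X Y n1 0) := by
  obtain ⟨h0, h1, h2⟩ := hf
  obtain ⟨k, rfl⟩ : ∃ k, n1 = k + 1 := ⟨n1 - 1, by omega⟩
  rw [Nat.add_sub_cancel] at h2
  have h3 : (P.side k).1 + dir (P.side k).2 + dir ((P.side k).2 - 1) ∉ P.Q := by
    rcases Pool.Agent.H4.Q1.next_cases P.Q (P.side k) with ⟨h, h'⟩ | ⟨h, h'⟩ | ⟨h, h', h''⟩
    · rw [side_succ, h'] at h2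
      exfalso
      have h4 : (P.side k).2 = (P.side k).2 - 1 := h2
      omega
    · exact h
    · exact h
  have h4 := Pool.Agent.H4.Q1.out_flat hX hY (isSide_side P k) h3
  unfold ot outer
  rw [← Pool.Agent.H4.Q1.bp_end, ← h2]
  exact h4

/-- **Attachment.** All faces of the cells of a hull are joined to the right face of the root edge by
dual paths crossing only labels of the hull (and closed labels outside the domain). -/
theorem IsHull.attach (h : IsHull P n1 A) (hf : FlatV P n1) (hX : Gap X) (hY : Gap Y)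
    (hM : Boxed P X Y M) {c : Cell} (hc : c ∈ A) {g : ℤ × ℤ} (hg : InF X Y c g) :
    DcA P X Y M M1 (Pool.Agent.Q1.M5.root (P.side n1).2 (bp P X Y n1 0)) A g (qf (bp P X Y n1 0) (P.side n1).2) := by
  have hXm := Gap.mono' hX
  have hYm := Gap.mono' hY
  obtain ⟨r, hr1, hr2, hr3⟩ := h.att c hc
  have hr0 : 0 ≤ (0 : ℤ) := le_rfl
  have hl : 0 < ln P X Y r := by have := Pool.Agent.H4.Q1.ln_ge (P := P) hX hY r; omega
  have hl1 : 0 < ln P X Y n1 := by have := Pool.Agent.H4.Q1.ln_ge (P := P) hX hY n1; omega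
  have hrA : (P.side r).1 ∈ A := Rch.mem hr3 hc
  obtain ⟨f1, f2⟩ := side_faces (P := P) hX hY r le_rfl hl
  have s1 := face_rch (M1 := M1) (e0 := Pool.Agent.Q1.M5.root (P.side n1).2 (bp P X Y n1 0)) hXm hYm hM
    h.sat.sub hc hr3 hg f1
  have hlab := side_label hX hY (A := A) (by omega) hr2 hrA le_rfl hl
  have s2 : DcA P X Y M M1 (Pool.Agent.Q1.M5.root (P.side n1).2 (bp P X Y n1 0)) A
      (qf (bp P X Y r 0) (P.side r).2) (qf (bp P X Y r 0) ((P.side r).2 + 1)) := by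
    refine qf_ad ?_ ?_
    · exact gs_box hM (EL_sub P X Y (Lh_sub P X Y A hlab))
    · exact fun h2 => (mem_sdiff.1 h2).2 hlab
  have s3 := cor_after hX hY (M1 := M1) hM (n0 := n1) (l0 := 0) hf.2.1 le_rfl hl1
    (flat_ot hX hY hf) hr2 (l := 0) le_rfl hl (Or.inl hr1)
  refine (s1.trans s2.symm).trans (s3.mono (du_anti sdiff_subset))

/-- **Attachment of labels.** -/
theorem IsHull.attach_label (h : IsHull P n1 A) (hf : FlatV P n1) (hX : Gap X) (hY : Gap Y)
    (hM : Boxed P X Y M) {g g' : ℤ × ℤ} (hu : IsUnit4 (g' - g))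
    (hl : g + g' - (1, 1) ∈ Lh P X Y A) :
    DcA P X Y M M1 (Pool.Agent.Q1.M5.root (P.side n1).2 (bp P X Y n1 0)) A g (qf (bp P X Y n1 0) (P.side n1).2) := by
  have hXm := Gap.mono' hX
  have hYm := Gap.mono' hY
  obtain ⟨h1, h2⟩ := mem_Lh.1 hl
  obtain ⟨c, hc, hce⟩ := mem_gs.1 (EL_sub P X Y h1)
  have hcA : c ∈ A := by
    by_contra hcon
    exact h2 (mem_gs.2 ⟨c, mem_sdiff.2 ⟨hc, hcon⟩, hce⟩)
  rcases (gcell_iff_faces hXm hYm hu).1 hce with h3 | h3
  · exact h.attach hf hX hY hM hcA h3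
  · have h4 := h.attach (M1 := M1) hf hX hY hM hcA h3
    refine Relation.ReflTransGen.head ⟨hu, mem_du_iff.2 ⟨?_, ?_⟩⟩ h4
    · exact gs_box hM (EL_sub P X Y h1)
    · exact fun h5 => (mem_sdiff.1 h5).2 hl

end

end Pool.Agent.H78.Q1
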