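import Mathlib
import Pool.Agent.H78.Q1.Attach

set_option autoImplicit false
open Finset

/-! Module M5, C1: hulls avoided by the connection of the root to the wired arc are stable under
unions (lattice lines with gaps at least two everywhere). -/

namespace Pool.Agent.H78.Q1

open Pool.Agent.H75.Perc Pool.Agent.H75.TwoArm Pool.Agent.H65.Dom
open Pool.Agent.H75.Four hiding rf
open Pool.Agent.H49.Q1 (gs gcell mem_gs CJ onCell)
open Pool.Agent.Q1.M4 (Cell Adj4 Conn4 Good IsSide nextSide tail head Eqv edge_cells dir_neg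
  PType isSide_iter isSide_next next_inj head_eq_tail_next inRect inV lpt)
open Pool.Agent.Q1.M5 (sV sL WL EL TV CT hh lv FlatV XW outer)
open Pool.Agent.H4.Q1 (Gap Boxed bp ln ot rf qf cor cor_after free_not_TV bp_V gs_box qf_ad Fc_dir
  qf_cases bw_cases root_dual root_Fc root_not_mem EL_disj)

variable {X Y : ℤ → ℤ} {P : PType}

/-- The region is contained in all large boxes. -/
lemma exists_boxed (P : PType) (X Y : ℤ → ℤ) : ∃ M0 : ℤ, ∀ M, M0 ≤ M → Boxed P X Y M := by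
  refine ⟨2 + ∑ c ∈ P.Q, (|X c.1| + |X (c.1 + 1)| + |Y c.2| + |Y (c.2 + 1)|), fun M hM v hv => ?_⟩
  obtain ⟨c, hc, ⟨h1, h2⟩, h3, h4⟩ := hv
  have h5 : |X c.1| + |X (c.1 + 1)| + |Y c.2| + |Y (c.2 + 1)| ≤
      ∑ c ∈ P.Q, (|X c.1| + |X (c.1 + 1)| + |Y c.2| + |Y (c.2 + 1)|) :=
    Finset.single_le_sum (f := fun c : Cell => |X c.1| + |X (c.1 + 1)| + |Y c.2| + |Y (c.2 + 1)|)
      (fun i _ => by positivity) hc
  have a1 := abs_nonneg (X c.1)
  have a2 := abs_nonneg (X (c.1 + 1))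
  have a3 := abs_nonneg (Y c.2)
  have a4 := abs_nonneg (Y (c.2 + 1))
  have b1 := neg_abs_le (X c.1)
  have b2 := le_abs_self (X (c.1 + 1))
  have b3 := neg_abs_le (Y c.2)
  have b4 := le_abs_self (Y (c.2 + 1))
  unfold inB
  refine ⟨⟨?_, ?_⟩, ?_, ?_⟩ <;> linarith

lemma lv_bp (n : ℕ) : lv P X Y n = bp P X Y n 0 := by
  unfold lv bp Pool.Agent.H4.Q1.bw PType.vert
  rw [zero_smul, add_zero]

section
variable {M : ℤ} {n1 : ℕ} {A A' : Finset Cell}

lemma env_sub (hX : Gap X) (hY : Gap Y) (hf : FlatV P n1) {ω : Finset (ℤ × ℤ)}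
    (hω : ω ⊆ EL P X Y) (B : Finset Cell) :
    (ω \ Lh P X Y B) ∪ insert (Pool.Agent.Q1.M5.root (P.side n1).2 (bp P X Y n1 0))
      (XW P X Y M) ⊆
    cor P X Y M (Pool.Agent.Q1.M5.root (P.side n1).2 (bp P X Y n1 0)) \ Lh P X Y B := by
  have hl1 : 0 < ln P X Y n1 := by have := Pool.Agent.H4.Q1.ln_ge (P := P) hX hY n1; omega
  have hr := root_not_mem hX hY (M := M) hf.2.1 le_rfl hl1 (Or.inl hf.1) (flat_ot hX hY hf)
  rw [mem_union, not_or] at hr
  intro e he
  rw [mem_sdiff]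
  unfold cor
  rw [mem_union, mem_insert]
  rcases mem_union.1 he with h | h
  · obtain ⟨h1, h2⟩ := mem_sdiff.1 h
    exact ⟨Or.inl (EL_sub P X Y (hω h1)), h2⟩
  · rcases mem_insert.1 h with h1 | h1
    · refine ⟨Or.inr (Or.inl h1), fun h2 => hr.1 ?_⟩
      rw [← h1]
      exact EL_sub P X Y (Lh_sub P X Y B h2)
    · refine ⟨Or.inr (Or.inr h1), fun h2 => ?_⟩
      exact (disjoint_left.1 (EL_disj (M := M))) (Lh_sub P X Y B h2) h1

/-- the faces of the labels of `A ∪ A'` are attached in the sense of `A` or of `A'` -/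
lemma IsHull.attach_union (h : IsHull P n1 A) (h' : IsHull P n1 A') (hf : FlatV P n1)
    (hX : Gap X) (hY : Gap Y) {M1 : ℤ} (hM : Boxed P X Y M) {g g' : ℤ × ℤ} (hu : IsUnit4 (g' - g))
    (hl : g + g' - (1, 1) ∈ Lh P X Y (A ∪ A')) :
    DcA P X Y M M1 (Pool.Agent.Q1.M5.root (P.side n1).2 (bp P X Y n1 0)) A g
      (qf (bp P X Y n1 0) (P.side n1).2) ∨
    DcA P X Y M M1 (Pool.Agent.Q1.M5.root (P.side n1).2 (bp P X Y n1 0)) A' g
      (qf (bp P X Y n1 0) (P.side n1).2) := by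
  have hXm := Gap.mono' hX
  have hYm := Gap.mono' hY
  obtain ⟨h1, h2⟩ := mem_Lh.1 hl
  have hcells : ∀ d ∈ P.Q, g + g' - (1, 1) ∈ gcell X Y d → d ∈ A ∪ A' := by
    intro d hd hd'
    by_contra hcon
    exact h2 (mem_gs.2 ⟨d, mem_sdiff.2 ⟨hd, hcon⟩, hd'⟩)
  by_cases hb : ∃ d ∈ A ∪ A', InF X Y d g
  · obtain ⟨d, hd, hdg⟩ := hb
    rcases mem_union.1 hd with h3 | h3
    · exact Or.inl (h.attach hf hX hY hM h3 hdg)
    · exact Or.inr (h'.attach hf hX hY hM h3 hdg)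
  · push Not at hb
    obtain ⟨c, hc, hce⟩ := mem_gs.1 (EL_sub P X Y h1)
    have hcA := hcells c hc hce
    have hcg : InF X Y c g' := by
      rcases (gcell_iff_faces hXm hYm hu).1 hce with h3 | h3
      · exact absurd h3 (hb c hcA)
      · exact h3
    have hlab : ∀ B : Finset Cell, c ∈ B → g + g' - (1, 1) ∈ Lh P X Y B := by
      intro B hB
      rw [mem_Lh]
      refine ⟨h1, fun h4 => ?_⟩
      obtain ⟨d, hd, hd'⟩ := mem_gs.1 h4
      obtain ⟨hd1, hd2⟩ := mem_sdiff.1 hd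
      rcases (gcell_iff_faces hXm hYm hu).1 hd' with h3 | h3
      · exact hb d (hcells d hd1 hd') h3
      · exact hd2 (InF.unique hXm hYm hcg h3 ▸ hB)
    rcases mem_union.1 hcA with h3 | h3
    · exact Or.inl (h.attach_label hf hX hY hM hu (hlab A h3))
    · exact Or.inr (h'.attach_label hf hX hY hM hu (hlab A' h3))

/-- **Lattice property of hulls** (global gaps). -/
theorem IsHull.lat (h : IsHull P n1 A) (h' : IsHull P n1 A') (hf : FlatV P n1) (hX : Gap X)
    (hY : Gap Y) {ω : Finset (ℤ × ℤ)} (hω : ω ⊆ EL P X Y)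
    (c1 : CT P X Y (lv P X Y n1) (ω \ Lh P X Y A))
    (c2 : CT P X Y (lv P X Y n1) (ω \ Lh P X Y A')) :
    CT P X Y (lv P X Y n1) (ω \ Lh P X Y (A ∪ A')) := by
  rw [lv_bp] at c1 c2 ⊢
  have hl1 : 0 < ln P X Y n1 := by have := Pool.Agent.H4.Q1.ln_ge (P := P) hX hY n1; omega
  obtain ⟨M0, hM0⟩ := exists_boxed P X Y
  set M := M0 + 1 with hMdef
  have hM1 : Boxed P X Y (M - 1) := hM0 _ (by omega)
  have hM : Boxed P X Y M := hM0 _ (by omega)
  set e0 := Pool.Agent.Q1.M5.root (P.side n1).2 (bp P X Y n1 0) with he0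
  set fL := qf (bp P X Y n1 0) ((P.side n1).2 - 1) with hfL
  set fR := qf (bp P X Y n1 0) (P.side n1).2 with hfR
  have hdual : ∀ B : Finset Cell, CT P X Y (bp P X Y n1 0) (ω \ Lh P X Y B) ↔
      ¬ Ph M ((ω \ Lh P X Y B) ∪ insert e0 (XW P X Y (M - 1))) (fun g => g = fL) fR := fun B =>
    root_dual hX hY hM1 (sdiff_subset.trans (hω.trans (EL_sub P X Y))) hf.2.1 le_rfl hl1
      (Or.inl hf.1) (flat_ot hX hY hf) he0 (root_Fc _ _)
  rw [hdual] at c1 c2 ⊢
  intro hcon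
  -- no dual path in the environments `A`, `A'`
  have hno : ∀ B : Finset Cell, ¬ Ph M ((ω \ Lh P X Y B) ∪ insert e0 (XW P X Y (M - 1)))
      (fun g => g = fL) fR → ∀ b, Co (du (H75.TwoArm.BB M) (ω ∪ insert e0 (XW P X Y (M - 1))))
      fL b → DcA P X Y M (M - 1) e0 B b fR → False := by
    intro B hB b hb hb'
    apply hB
    refine ⟨fL, rfl, ?_⟩
    have p1 := hb.mono (du_anti (B := H75.TwoArm.BB M) (union_subset_union
      (sdiff_subset (s := ω) (t := Lh P X Y B)) (subset_refl (insert e0 (XW P X Y (M - 1))))))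
    have p2 := hb'.mono (du_anti (B := H75.TwoArm.BB M) (env_sub (M := M - 1) hX hY hf hω B))
    exact p1.trans p2
  have key : ∀ g, Co (du (H75.TwoArm.BB M) ((ω \ Lh P X Y (A ∪ A')) ∪
      insert e0 (XW P X Y (M - 1)))) fL g →
      Co (du (H75.TwoArm.BB M) (ω ∪ insert e0 (XW P X Y (M - 1)))) fL g := by
    intro g hg
    induction hg with
    | refl => exact Co.refl _ _
    | @tail b c _ hbc ih =>
      refine Relation.ReflTransGen.tail ih ⟨hbc.1, ?_⟩
      have hl := hbc.2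
      rw [mem_du_iff] at hl ⊢
      refine ⟨hl.1, fun hin => ?_⟩
      have hω' : b + c - (1, 1) ∈ ω ∧ b + c - (1, 1) ∈ Lh P X Y (A ∪ A') := by
        rcases mem_union.1 hin with h3 | h3
        · refine ⟨h3, ?_⟩
          by_contra h4
          exact hl.2 (mem_union_left _ (mem_sdiff.2 ⟨h3, h4⟩))
        · exact absurd (mem_union_right _ h3) hl.2
      rcases h.attach_union (M1 := M - 1) h' hf hX hY hM hbc.1 hω'.2 with h3 | h3
      · exact hno A c1 b ih h3
      · exact hno A' c2 b ih h3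
  obtain ⟨s, hs, hco⟩ := hcon
  have hs' : s = fL := hs
  rw [hs'] at hco
  have h5 := key fR hco
  exact hno A c1 fR h5 (Co.refl _ _)

end

end Pool.Agent.H78.Q1
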