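import Mathlib
import Pool.Agent.H78.Q1.LatHull
import Pool.Agent.H76.Q1.C2Fin

set_option autoImplicit false
open Finset

/-! Module M5, C1: the hull hypothesis of C2 (StLAT). Local gaps are reduced to global gaps by changing
the lattice lines away from the domain. -/

namespace Pool.Agent.H78.Q1

open Pool.Agent.H75.Perc Pool.Agent.H75.Four
open Pool.Agent.H49.Q1 (gs gcell mem_gs CJ onCell)
open Pool.Agent.Q1.M4 (Cell Adj4 Conn4 Good IsSide nextSide tail head Eqv edge_cells dir_neg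
  PType isSide_iter isSide_next next_inj head_eq_tail_next inRect inV lpt)
open Pool.Agent.Q1.M5 (sV sL WL EL TV CT hh lv FlatV)

/-! ### Intervals of rows and columns -/

lemma conn_col {Q : Finset Cell} (hQ : Conn4 (Q : Set Cell)) {c d : Cell} (hc : c ∈ Q) (hd : d ∈ Q)
    {k : ℤ} (h1 : c.1 ≤ k) (h2 : k ≤ d.1) : ∃ e ∈ Q, e.1 = k := by
  have key : ∀ e, Rch (Q : Set Cell) c e → k ≤ e.1 → ∃ e ∈ Q, e.1 = k := by
    intro e he
    induction he with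
    | refl => exact fun h => ⟨c, hc, le_antisymm h1 h⟩
    | @tail a b _ hab ih =>
      intro hk
      by_cases hka : k ≤ a.1
      · exact ih hka
      · refine ⟨b, hab.2, ?_⟩
        obtain ⟨j, hj⟩ := hab.1
        rcases dir_cases j with ⟨-, e⟩ | ⟨-, e⟩ | ⟨-, e⟩ | ⟨-, e⟩ <;> rw [e] at hj <;>
        rw [hj] at hk ⊢ <;> simp only [Prod.fst_add] at hk ⊢ <;> omega
  exact key d (hQ c hc d hd) h2

lemma conn_row {Q : Finset Cell} (hQ : Conn4 (Q : Set Cell)) {c d : Cell} (hc : c ∈ Q) (hd : d ∈ Q)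
    {k : ℤ} (h1 : c.2 ≤ k) (h2 : k ≤ d.2) : ∃ e ∈ Q, e.2 = k := by
  have key : ∀ e, Rch (Q : Set Cell) c e → k ≤ e.2 → ∃ e ∈ Q, e.2 = k := by
    intro e he
    induction he with
    | refl => exact fun h => ⟨c, hc, le_antisymm h1 h⟩
    | @tail a b _ hab ih =>
      intro hk
      by_cases hka : k ≤ a.2
      · exact ih hka
      · refine ⟨b, hab.2, ?_⟩
        obtain ⟨j, hj⟩ := hab.1
        rcases dir_cases j with ⟨-, e⟩ | ⟨-, e⟩ | ⟨-, e⟩ | ⟨-, e⟩ <;> rw [e] at hj <;>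
        rw [hj] at hk ⊢ <;> simp only [Prod.snd_add] at hk ⊢ <;> omega
  exact key d (hQ c hc d hd) h2

/-- Extension of lattice lines with gaps. -/
lemma ext_gap {X : ℤ → ℤ} {S : Finset ℤ} (hS : S.Nonempty)
    (hint : ∀ i ∈ S, ∀ j ∈ S, ∀ k, i ≤ k → k ≤ j → k ∈ S) (hg : ∀ i ∈ S, X i + 2 ≤ X (i + 1)) :
    ∃ X' : ℤ → ℤ, H4.Q1.Gap X' ∧ ∀ i ∈ S, X' i = X i ∧ X' (i + 1) = X (i + 1) := by
  set a := S.min' hS with ha
  set b := S.max' hS + 1 with hb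
  have haS : a ∈ S := S.min'_mem hS
  have hbS : b - 1 ∈ S := by rw [hb, add_sub_cancel_right]; exact S.max'_mem hS
  have hamin : ∀ i ∈ S, a ≤ i := fun i hi => S.min'_le i hi
  have hbmax : ∀ i ∈ S, i ≤ b - 1 := fun i hi => by
    rw [hb, add_sub_cancel_right]; exact S.le_max' i hi
  have hab : a ≤ b - 1 := hamin _ hbS
  obtain ⟨f, hf⟩ : ∃ f : ℤ → ℤ, f = fun i => if i ≤ a then X a - 2 * (a - i) else
    if b ≤ i then X b + 2 * (i - b) else X i := ⟨_, rfl⟩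
  have hlo : ∀ i, i ≤ a → f i = X a - 2 * (a - i) := fun i hi => by
    rw [hf]; simp only; rw [if_pos hi]
  have hhi : ∀ i, b ≤ i → f i = X b + 2 * (i - b) := fun i hi => by
    rw [hf]; simp only; rw [if_neg (by omega), if_pos hi]
  have hmid : ∀ i, a ≤ i → i ≤ b → f i = X i := by
    intro i h1 h2
    rcases eq_or_lt_of_le h1 with h3 | h3
    · rw [hlo i (by omega), ← h3]; ring
    · rcases eq_or_lt_of_le h2 with h4 | h4
      · rw [hhi i (by omega), h4]; ring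
      · rw [hf]; simp only; rw [if_neg (by omega), if_neg (by omega)]
  refine ⟨f, fun i => ?_, fun i hi => ⟨?_, ?_⟩⟩
  · rcases lt_or_ge i a with h1 | h1
    · rw [hlo i h1.le, hlo (i + 1) (by omega)]; omega
    · rcases lt_or_ge i b with h2 | h2
      · rw [hmid i h1 h2.le, hmid (i + 1) (by omega) (by omega)]
        exact hg i (hint a haS (b - 1) hbS i h1 (by omega))
      · rw [hhi i h2, hhi (i + 1) (by omega)]; omega
  · have h1 := hamin i hi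
    have h2 := hbmax i hi
    exact hmid i h1 (by omega)
  · have h1 := hamin i hi
    have h2 := hbmax i hi
    exact hmid (i + 1) (by omega) (by omega)

/-- `X', Y'` agree with `X, Y` on the lines of the cells of `Q`. -/
structure Agr (Q : Finset Cell) (X Y X' Y' : ℤ → ℤ) : Prop where
  x0 : ∀ c ∈ Q, X' c.1 = X c.1
  x1 : ∀ c ∈ Q, X' (c.1 + 1) = X (c.1 + 1)
  y0 : ∀ c ∈ Q, Y' c.2 = Y c.2
  y1 : ∀ c ∈ Q, Y' (c.2 + 1) = Y (c.2 + 1)

section
variable {X Y X' Y' : ℤ → ℤ} {P : PType}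

lemma exists_agr (hG : H44.Q1.Gap P.Q X Y 2) :
    ∃ X' Y', H4.Q1.Gap X' ∧ H4.Q1.Gap Y' ∧ Agr P.Q X Y X' Y' := by
  obtain ⟨c0, hc0⟩ := P.good.ne
  have hgap : ∀ c ∈ P.Q, X c.1 + 2 ≤ X (c.1 + 1) ∧ Y c.2 + 2 ≤ Y (c.2 + 1) := fun c hc =>
    hG.2.2 c hc c (by simp) (by simp)
  obtain ⟨X', hX', hx⟩ := ext_gap (X := X) (S := P.Q.image Prod.fst) ⟨c0.1, mem_image_of_mem _ hc0⟩
    (by
      intro i hi j hj k h1 h2
      obtain ⟨c, hc, rfl⟩ := mem_image.1 hi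
      obtain ⟨d, hd, rfl⟩ := mem_image.1 hj
      obtain ⟨e, he, hek⟩ := conn_col P.good.conn hc hd h1 h2
      exact mem_image.2 ⟨e, he, hek⟩)
    (by
      intro i hi
      obtain ⟨c, hc, rfl⟩ := mem_image.1 hi
      exact (hgap c hc).1)
  obtain ⟨Y', hY', hy⟩ := ext_gap (X := Y) (S := P.Q.image Prod.snd) ⟨c0.2, mem_image_of_mem _ hc0⟩
    (by
      intro i hi j hj k h1 h2
      obtain ⟨c, hc, rfl⟩ := mem_image.1 hi
      obtain ⟨d, hd, rfl⟩ := mem_image.1 hj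
      obtain ⟨e, he, hek⟩ := conn_row P.good.conn hc hd h1 h2
      exact mem_image.2 ⟨e, he, hek⟩)
    (by
      intro i hi
      obtain ⟨c, hc, rfl⟩ := mem_image.1 hi
      exact (hgap c hc).2)
  exact ⟨X', Y', hX', hY', fun c hc => (hx _ (mem_image_of_mem _ hc)).1,
    fun c hc => (hx _ (mem_image_of_mem _ hc)).2, fun c hc => (hy _ (mem_image_of_mem _ hc)).1,
    fun c hc => (hy _ (mem_image_of_mem _ hc)).2⟩

variable (h : Agr P.Q X Y X' Y')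
include h

lemma Agr.gcell {c : Cell} (hc : c ∈ P.Q) : H49.Q1.gcell X' Y' c = H49.Q1.gcell X Y c := by
  unfold H49.Q1.gcell
  rw [h.x0 c hc, h.x1 c hc, h.y0 c hc, h.y1 c hc]

lemma Agr.gs {S : Finset Cell} (hS : S ⊆ P.Q) : H49.Q1.gs X' Y' S = H49.Q1.gs X Y S := by
  ext e
  rw [mem_gs, mem_gs]
  constructor
  · rintro ⟨c, hc, he⟩
    exact ⟨c, hc, by rwa [h.gcell (hS hc)] at he⟩
  · rintro ⟨c, hc, he⟩
    exact ⟨c, hc, by rwa [h.gcell (hS hc)]⟩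

lemma Agr.sV {s : Cell × ℤ} (hs : s.1 ∈ P.Q) (v : ℤ × ℤ) :
    Q1.M5.sV X' Y' s v ↔ Q1.M5.sV X Y s v := by
  unfold Q1.M5.sV onCell
  rw [h.x0 _ hs, h.x1 _ hs, h.y0 _ hs, h.y1 _ hs]

lemma Agr.TV : Q1.M5.TV P X' Y' = Q1.M5.TV P X Y := by
  funext v
  unfold Q1.M5.TV
  refine propext (exists_congr fun n => and_congr_right fun _ => and_congr_right fun _ =>
    h.sV (isSide_side P n).1 v)

lemma Agr.WL : Q1.M5.WL P X' Y' = Q1.M5.WL P X Y := by
  ext e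
  rw [mem_WL, mem_WL]
  refine exists_congr fun n => and_congr_right fun _ => and_congr_right fun _ => ?_
  rw [mem_sL_iff, mem_sL_iff, h.sV (isSide_side P n).1, h.sV (isSide_side P n).1]

lemma Agr.EL : Q1.M5.EL P X' Y' = Q1.M5.EL P X Y := by
  unfold Q1.M5.EL
  rw [h.WL, h.gs subset_rfl]

lemma Agr.Lh (A : Finset Cell) : H78.Q1.Lh P X' Y' A = H78.Q1.Lh P X Y A := by
  unfold H78.Q1.Lh
  rw [h.EL, h.gs sdiff_subset]

lemma Agr.lv (n : ℕ) : Q1.M5.lv P X' Y' n = Q1.M5.lv P X Y n := by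
  unfold Q1.M5.lv PType.vert
  have hs := (isSide_side P n).1
  have a1 := h.x0 _ hs
  have a2 := h.x1 _ hs
  have a3 := h.y0 _ hs
  have a4 := h.y1 _ hs
  unfold lpt tail
  split_ifs <;> simp [a1, a2, a3, a4]

lemma Agr.CT (v : ℤ × ℤ) (ω : Finset (ℤ × ℤ)) : Q1.M5.CT P X' Y' v ω ↔ Q1.M5.CT P X Y v ω := by
  unfold Q1.M5.CT
  rw [h.WL, h.TV]

end

/-! ### StLAT -/

lemma mem_Hs {P : PType} {n1 : ℕ} {A : Finset Cell} :
    A ∈ H44.Q1.Hs P n1 ↔ IsHull P n1 A := by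
  classical
  unfold H44.Q1.Hs
  rw [mem_filter, mem_powerset]
  exact ⟨fun h => h.2, fun h => ⟨h.sat.sub, h⟩⟩

lemma hullFam (P : PType) (n1 : ℕ) : HullFam (H44.Q1.Hs P n1) :=
  ⟨mem_Hs.2 (IsHull.empty P n1), fun _ hS _ hS' => mem_Hs.2 ((mem_Hs.1 hS).union (mem_Hs.1 hS'))⟩

/-- **StLAT.** -/
theorem stLAT : H76.Q1.StLAT 2 := by
  intro P X Y _ hG n1 hf
  refine ⟨hullFam P n1, fun A hA A' hA' ω hω h1 h2 => ?_⟩
  obtain ⟨X', Y', hX', hY', hag⟩ := exists_agr hG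
  have conv : ∀ B : Finset Cell, H44.Q1.XA P X Y n1 B ω ↔
      CT P X' Y' (lv P X' Y' n1) (ω \ Lh P X' Y' B) := by
    intro B
    rw [hag.CT, hag.lv, hag.Lh]
    exact Iff.rfl
  rw [conv] at h1 h2 ⊢
  exact (mem_Hs.1 hA).lat (mem_Hs.1 hA') hf hX' hY' (by rw [hag.EL]; exact hω) h1 h2

end Pool.Agent.H78.Q1
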