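import Mathlib
import Pool.Agent.H78.Q1.StLat
import Pool.Agent.H90.Q1.LBStmt

set_option autoImplicit false
open Finset

/-! Module M5, LB2: the labels of a hull are attached to the right face of the root edge (StRAtt). -/

namespace Pool.Agent.H78.Q1

open Pool.Agent.H75.Perc hiding WL
open Pool.Agent.H75.TwoArm Pool.Agent.H65.Dom
open Pool.Agent.Q1.M4 (Cell PType)
open Pool.Agent.Q1.M5 (EL lv FlatV XW)
open Pool.Agent.H4.Q1 (Gap Boxed bp ln qf root_Fc)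
open Pool.Agent.H29.Q1 (pcor)
open Pool.Agent.H90.Q1 (rt)
open Pool.Agent.H5.Q1 (oc)

lemma fi_oc_qf (p : ℤ × ℤ) (k : ℤ) : fi (oc p k) = qf p (k - 1) := by
  obtain ⟨h0, h1, h2, h3⟩ := Pool.Agent.H5.Q1.fi_oc p k
  rcases Pool.Agent.H4.Q1.qf_cases p (k - 1) with ⟨a, -, e, -⟩ | ⟨a, -, e, -⟩ | ⟨a, -, e, -⟩ |
    ⟨a, -, e, -⟩ <;> rw [e]
  · rw [h1 (by omega)]; exact Prod.ext (by simp) (by simp)
  · rw [h2 (by omega)]; exact Prod.ext (by simp) (by simp)
  · rw [h3 (by omega)]; exact Prod.ext (by simp) (by simp)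
  · rw [h0 (by omega)]

/-- the right face of the root edge -/
lemma right_face {P : PType} {X Y : ℤ → ℤ} (hX : Gap X) (hY : Gap Y) {M : ℤ}
    (hM : Boxed P X Y M) {n : ℕ} (hf : FlatV P n) :
    fi (pcor P X Y (rt P X Y n + 1)) = qf (bp P X Y n 0) (P.side n).2 := by
  have h1 := (H90.Q1.root_facts hX hY hM hf).2.2.2.2.1
  have h2 := root_Fc (P.side n).2 (lv P X Y n)
  have h3 := H90.Q1.pcor_rt (Gap.mono' hX) (Gap.mono' hY) hf
  rw [h3, fi_oc_qf] at h1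
  rw [← lv_bp]
  rcases h1 with ⟨a1, a2⟩ | ⟨a1, a2⟩ <;> rcases h2 with ⟨b1, b2⟩ | ⟨b1, b2⟩
  · rw [a2, b2]
  · rw [a2, b2, ← b1, ← a1]
  · rw [a1, b2, ← b1, ← a2]
  · rw [a1, b2]

/-- **StRAtt.** -/
theorem stRAtt : H90.Q1.StRAtt := by
  intro P X Y _ hX hY n1 hf A hA M hM a ha g hg
  obtain ⟨g', hu, hl⟩ := hg
  have hM' : Boxed P X Y M := hM.mono (by omega)
  have hh := mem_Hs.1 hA
  have hl' : g + g' - (1, 1) ∈ Lh P X Y A := by
    have h1 : g + g' - (1, 1) = a := hl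
    rw [h1]
    exact ha
  have h1 := hh.attach_label (M1 := M - 1) hf hX hY hM' hu hl'
  rw [right_face hX hY hM' hf]
  unfold DcA at h1
  have e1 : lv P X Y n1 = bp P X Y n1 0 := lv_bp n1
  unfold H77.Q1.Dc
  rw [e1]
  refine (h1.mono (du_anti ?_)).symm
  have h2 := env_sub (M := M - 1) hX hY hf (subset_refl (EL P X Y)) A
  refine Subset.trans ?_ h2
  rw [union_insert]
  exact subset_refl _

end Pool.Agent.H78.Q1
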